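import Mathlib.MeasureTheory.Function.LpSpace.Basic
import Mathlib.MeasureTheory.Measure.Haar.OfBasis
import Mathlib.Analysis.CStarAlgebra.Classes
import Mathlib.Order.CompletePartialOrder

/-!
Decreasing rearrangement and Lorentz quasi-norms.
-/

open MeasureTheory
open scoped ENNReal NNReal

namespace Pool.Agent.MP_f2c8fe_an

variable {α : Type*} [MeasurableSpace α]

/-- The decreasing rearrangement `f*(t) = inf {s ≥ 0 : μ {|f| > s} ≤ t}`, with values in `[0, ∞]`. -/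
noncomputable def rearr (μ : Measure α) (f : α → ℂ) (t : ℝ) : ℝ≥0∞ :=
  sInf {s : ℝ≥0∞ | μ {x | s < ‖f x‖ₑ} ≤ ENNReal.ofReal t}

/-- The Lorentz quasi-norm of `L^{p,q}` for finite `q`:
`(∫_0^∞ (t^{1/p} f*(t))^q dt/t)^{1/q}`. -/
noncomputable def lorentzNorm (μ : Measure α) (p q : ℝ) (f : α → ℂ) : ℝ≥0∞ :=
  (∫⁻ t in Set.Ioi (0 : ℝ),
    (ENNReal.ofReal (t ^ (1 / p)) * rearr μ f t) ^ q / ENNReal.ofReal t) ^ (1 / q)

/-- The quasi-norm of `L^{p,∞}`: `sup_{t > 0} t^{1/p} f*(t)`. -/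
noncomputable def weakNorm (μ : Measure α) (p : ℝ) (f : α → ℂ) : ℝ≥0∞ :=
  ⨆ t ∈ Set.Ioi (0 : ℝ), ENNReal.ofReal (t ^ (1 / p)) * rearr μ f t

/-- A linear operator from `L^P(μ)` to the classes of measurable functions modulo null sets. -/
abbrev Op (μ : Measure α) (P : ℝ≥0∞) : Type _ := Lp ℂ P μ →ₗ[ℂ] (α →ₘ[μ] ℂ)

/-- `T` commutes with all translations: if `g = f (· - h)` a.e. then `T g = (T f) (· - h)` a.e. -/
def TransInv [Sub α] {μ : Measure α} {P : ℝ≥0∞} (T : Op μ P) : Prop :=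
  ∀ (h : α) (f g : Lp ℂ P μ), (∀ᵐ x ∂μ, g x = f (x - h)) → ∀ᵐ x ∂μ, T g x = T f (x - h)

/-- `T` is bounded from `L^P` to the space with quasi-norm `N`: `N (T f) ≤ C ‖f‖_P` for all `f`. -/
def BoundedInto {μ : Measure α} {P : ℝ≥0∞} (T : Op μ P) (N : (α → ℂ) → ℝ≥0∞) : Prop :=
  ∃ C : ℝ≥0, ∀ f : Lp ℂ P μ, N (T f) ≤ C * eLpNorm f P μ

/-- `N (T f) = ∞` for `f` the class in `L^P` of the indicator function of `B`. -/
def InfiniteOnIndicator {μ : Measure α} {P : ℝ≥0∞} (T : Op μ P) (N : (α → ℂ) → ℝ≥0∞)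
    (B : Set α) : Prop :=
  ∃ f : Lp ℂ P μ, (∀ᵐ x ∂μ, f x = B.indicator (fun _ => 1) x) ∧ N (T f) = ⊤

end Pool.Agent.MP_f2c8fe_an
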