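import Mathlib.Topology.Sheaves.Presheaf
import Mathlib.Algebra.Order.Ring.Star
import Mathlib.Algebra.Order.Chebyshev
import Mathlib.Algebra.Order.Star.Real
import Mathlib.Combinatorics.SimpleGraph.Basic
import Mathlib.Analysis.SpecialFunctions.Complex.CircleAddChar
import Mathlib.RingTheory.PiTensorProduct
import Mathlib.RingTheory.SimpleRing.Principal
import Pool.Agent.MP_f2c8fe_an.Defs

-- ======== part 0: formerly Pool.Agent.MP_f2c8fe_an.Finite
section MrgPart0

/-!
Weak type estimate on a finite abelian group for a sum of normalised kernels that are supported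
on a chain of subgroups and have small correlations.
-/

open Finset
open scoped ComplexConjugate

namespace Pool.Agent.MP_f2c8fe_an

lemma sq_le_rpow_mul {F c p : ℝ} (hp0 : 0 < p) (hp : p < 2) (h0 : 0 ≤ F) (hc : F ≤ c) :
    F ^ 2 ≤ c ^ (2 - p) * F ^ p := by
  have h1 : F ^ 2 = F ^ (2 - p) * F ^ p := by
    rw [← Real.rpow_add_of_nonneg h0 (by linarith) hp0.le]
    simp
  rw [h1]
  exact mul_le_mul_of_nonneg_right (Real.rpow_le_rpow h0 hc (by linarith))
    (Real.rpow_nonneg h0 _)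

lemma le_rpow_mul {F c p : ℝ} (hp : 1 < p) (hc0 : 0 < c) (hc : c < F) :
    F ≤ c ^ (1 - p) * F ^ p := by
  have hF : 0 < F := hc0.trans hc
  have h1 : F = F ^ (1 - p) * F ^ p := by
    rw [← Real.rpow_add hF]
    simp
  calc F = F ^ (1 - p) * F ^ p := h1
    _ ≤ c ^ (1 - p) * F ^ p := by
      refine mul_le_mul_of_nonneg_right ?_ (Real.rpow_nonneg hF.le _)
      exact Real.rpow_le_rpow_of_nonpos hc0 hc.le (by linarith)

variable {G : Type*} [AddCommGroup G] [Fintype G]

/-- convolution on a finite group -/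
noncomputable def cv (k f : G → ℂ) (x : G) : ℂ := ∑ y, k (x - y) * f y

/-- correlation of two kernels -/
noncomputable def corr (k l : G → ℂ) (y z : G) : ℂ := ∑ x, k (x - y) * conj (l (x - z))

lemma sum_cv_mul_conj (k l f g : G → ℂ) :
    ∑ x, cv k f x * conj (cv l g x) = ∑ y, ∑ z, f y * conj (g z) * corr k l y z := by
  simp only [cv, corr, map_sum, map_mul]
  simp only [Finset.sum_mul_sum]
  simp only [Finset.mul_sum]
  rw [Finset.sum_comm]
  refine Finset.sum_congr rfl fun y _ => ?_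
  rw [Finset.sum_comm]
  refine Finset.sum_congr rfl fun z _ => ?_
  refine Finset.sum_congr rfl fun x _ => ?_
  ring

lemma sum_normSq_cv [DecidableEq G] (k f : G → ℂ) (n : ℝ)
    (h : ∀ y z, corr k k y z = if y = z then (n : ℂ) else 0) :
    ∑ x, ‖cv k f x‖ ^ 2 = n * ∑ y, ‖f y‖ ^ 2 := by
  have h1 := sum_cv_mul_conj k k f f
  simp only [h, mul_ite, mul_zero, Finset.sum_ite_eq, Finset.mem_univ, if_true,
    Complex.mul_conj, Complex.normSq_eq_norm_sq] at h1
  rw [← Finset.sum_mul] at h1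
  have h2 : ((∑ x, ‖cv k f x‖ ^ 2 : ℝ) : ℂ) = ((n * ∑ y, ‖f y‖ ^ 2 : ℝ) : ℂ) := by
    push_cast at h1 ⊢
    rw [h1]; ring
  exact_mod_cast h2

omit [AddCommGroup G] in
lemma card_gt_le_sum_sq (S : G → ℂ) :
    ((univ.filter fun x => 1 < ‖S x‖).card : ℝ) ≤ ∑ x, ‖S x‖ ^ 2 := by
  calc ((univ.filter fun x => 1 < ‖S x‖).card : ℝ)
      = ∑ x ∈ univ.filter fun x => 1 < ‖S x‖, (1 : ℝ) := by simp
    _ ≤ ∑ x ∈ univ.filter fun x => 1 < ‖S x‖, ‖S x‖ ^ 2 := by
      refine Finset.sum_le_sum fun x hx => ?_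
      have := (Finset.mem_filter.1 hx).2
      nlinarith
    _ ≤ ∑ x, ‖S x‖ ^ 2 :=
      Finset.sum_le_sum_of_subset_of_nonneg (Finset.filter_subset _ _) fun _ _ _ => by positivity

open Classical in
/-- the covering lemma for a chain of subgroups -/
lemma card_bad_le {M : ℕ} (H : Fin M → AddSubgroup G) (hH : Monotone H) (w : G → ℝ)
    (hw : ∀ y, 0 ≤ w y) :
    ((univ.filter fun x => ∃ j, (Nat.card (H j) : ℝ) <
      ∑ y ∈ univ.filter fun y => y - x ∈ H j, w y).card : ℝ) ≤ ∑ y, w y := by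
  set bad : Fin M → G → Prop := fun j x => (Nat.card (H j) : ℝ) <
      ∑ y ∈ univ.filter fun y => y - x ∈ H j, w y with hbad
  have hcongr : ∀ j x y, y - x ∈ H j → (bad j x ↔ bad j y) := by
    intro j x y hxy
    have : (univ.filter fun z => z - x ∈ H j) = univ.filter fun z => z - y ∈ H j := by
      ext z
      simp only [Finset.mem_filter, Finset.mem_univ, true_and]
      constructor
      · intro h
        have := (H j).sub_mem h hxy
        simpa using this
      · intro h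
        have := (H j).add_mem h hxy
        simpa using this
    simp only [hbad, this]
  have hcard : ∀ j x, ((univ.filter fun y => x - y ∈ H j).card : ℝ) = Nat.card (H j) := by
    intro j x
    have : (univ.filter fun y => x - y ∈ H j).card = (univ.filter fun y => y ∈ H j).card := by
      refine Finset.card_bij (fun y _ => x - y) ?_ ?_ ?_
      · intro y hy; simpa using hy
      · intro y _ z _ h; simpa using h
      · intro y hy; exact ⟨x - y, by simpa using hy, by simp⟩
    rw [this, Nat.card_eq_fintype_card, Fintype.card_subtype]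
  have hpos : ∀ j, (0 : ℝ) < Nat.card (H j) := fun j => by exact_mod_cast Nat.card_pos
  -- top j x : j is the largest bad index of x
  set top : Fin M → G → Prop := fun j x => bad j x ∧ ∀ i, j < i → ¬ bad i x with htop
  have htop_congr : ∀ j x y, y - x ∈ H j → top j x → top j y := by
    intro j x y hxy hx
    refine ⟨(hcongr j x y hxy).1 hx.1, fun i hi hb => hx.2 i hi ?_⟩
    exact (hcongr i x y (hH hi.le hxy)).2 hb
  have htop_unique : ∀ i j x, top i x → top j x → i = j := by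
    intro i j x hi hj
    rcases lt_trichotomy i j with h | h | h
    · exact absurd hj.1 (hi.2 j h)
    · exact h
    · exact absurd hi.1 (hj.2 i h)
  have hex : ∀ x, (∃ j, bad j x) → ∃ j, top j x := by
    intro x ⟨j, hj⟩
    obtain ⟨i, hi, hmax⟩ := Finset.exists_max_image (univ.filter fun j => bad j x) id
      ⟨j, by simpa using hj⟩
    refine ⟨i, by simpa using hi, fun l hl hb => ?_⟩
    have := hmax l (by simpa using hb)
    exact absurd hl (not_lt.2 this)
  calc ((univ.filter fun x => ∃ j, bad j x).card : ℝ)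
      = ∑ x ∈ univ.filter fun x => ∃ j, bad j x, (1 : ℝ) := by simp
    _ ≤ ∑ x ∈ univ.filter fun x => ∃ j, bad j x, ∑ j, ∑ y,
          (if top j x ∧ y - x ∈ H j then w y / Nat.card (H j) else 0) := by
      refine Finset.sum_le_sum fun x hx => ?_
      obtain ⟨j, hj⟩ := hex x (Finset.mem_filter.1 hx).2
      have h1 : (1 : ℝ) ≤ ∑ y, (if top j x ∧ y - x ∈ H j then w y / Nat.card (H j) else 0) := by
        have h2 : ∑ y, (if top j x ∧ y - x ∈ H j then w y / Nat.card (H j) else 0)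
            = (∑ y ∈ univ.filter fun y => y - x ∈ H j, w y) / Nat.card (H j) := by
          have h3 : (∑ y ∈ univ.filter fun y => y - x ∈ H j, w y) / (Nat.card (H j) : ℝ)
              = ∑ y, (if y - x ∈ H j then w y else 0) / (Nat.card (H j) : ℝ) := by
            rw [Finset.sum_filter, Finset.sum_div]
          refine Eq.trans ?_ h3.symm
          refine Finset.sum_congr rfl fun y _ => ?_
          by_cases h : y - x ∈ H j <;> simp [h, hj]
        rw [h2, le_div_iff₀ (hpos j), one_mul]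
        exact hj.1.le
      refine h1.trans ?_
      refine Finset.single_le_sum (f := fun j => ∑ y,
          (if top j x ∧ y - x ∈ H j then w y / Nat.card (H j) else 0)) ?_ (Finset.mem_univ j)
      intro i _
      refine Finset.sum_nonneg fun y _ => ?_
      split_ifs
      · exact div_nonneg (hw y) (hpos i).le
      · exact le_rfl
    _ ≤ ∑ x, ∑ j, ∑ y, (if top j y ∧ y - x ∈ H j then w y / Nat.card (H j) else 0) := by
      refine le_trans (Finset.sum_le_sum (g := fun x => ∑ j, ∑ y,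
        (if top j y ∧ y - x ∈ H j then w y / Nat.card (H j) else 0)) fun x _ => ?_) ?_
      · refine Finset.sum_le_sum fun j _ => Finset.sum_le_sum fun y _ => ?_
        by_cases h : top j x ∧ y - x ∈ H j
        · rw [if_pos h, if_pos ⟨htop_congr j x y h.2 h.1, h.2⟩]
        · rw [if_neg h]
          split_ifs
          · exact div_nonneg (hw y) (hpos j).le
          · exact le_rfl
      · refine Finset.sum_le_sum_of_subset_of_nonneg (Finset.filter_subset _ _) fun x _ _ => ?_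
        refine Finset.sum_nonneg fun j _ => Finset.sum_nonneg fun y _ => ?_
        split_ifs
        · exact div_nonneg (hw y) (hpos j).le
        · exact le_rfl
    _ = ∑ y, ∑ j, (if top j y then w y else 0) := by
      rw [Finset.sum_comm]
      rw [Finset.sum_comm (f := fun y j => if top j y then w y else 0)]
      refine Finset.sum_congr rfl fun j _ => ?_
      rw [Finset.sum_comm]
      refine Finset.sum_congr rfl fun y _ => ?_
      by_cases h : top j y
      · simp only [h, true_and, if_true]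
        rw [← Finset.sum_filter, Finset.sum_const, nsmul_eq_mul, hcard]
        field_simp [(hpos j).ne']
      · simp [h]
    _ ≤ ∑ y, w y := by
      refine Finset.sum_le_sum fun y _ => ?_
      by_cases h : ∃ j, top j y
      · obtain ⟨j, hj⟩ := h
        rw [Finset.sum_eq_single j]
        · simp [hj]
        · intro i _ hi
          rw [if_neg fun h' => hi (htop_unique i j y h' hj)]
        · simp
      · push Not at h
        simp [h, hw y]

open Classical in
/-- The weak type estimate at level two. -/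
theorem weak_finite {M : ℕ} {p W : ℝ} (hp1 : 1 < p) (hp2 : p < 2) (hW : 1 ≤ W)
    (H : Fin M → AddSubgroup G) (hH : Monotone H) (σ : Fin M → G → ℂ)
    (hsupp : ∀ j x, x ∉ H j → σ j x = 0)
    (hauto : ∀ j y z, corr (σ j) (σ j) y z = if y = z then ((Nat.card (H j) : ℝ) : ℂ) else 0)
    (hcross : ∀ i j, i < j → ∀ y z, ‖corr (σ i) (σ j) y z‖ ≤ √(Nat.card (H i)))
    (a : Fin M → ℝ) (ha0 : ∀ j, 0 < a j) (ha : ∀ j, a j ^ p = Nat.card (H j))
    (hgrow : ∀ i j, i < j → W * a i ≤ a j)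
    (hW1 : (M : ℝ) ^ 2 * W ^ (p - 2) ≤ 1)
    (hW2 : ∀ i, (M : ℝ) ^ 2 * (W ^ (p - 1)) ^ 2 ≤ √(Nat.card (H i)))
    (f : G → ℂ) :
    ((univ.filter fun x => 2 < ‖∑ j, ((a j)⁻¹ : ℂ) * cv (σ j) f x‖).card : ℝ)
      ≤ 4 * ∑ y, ‖f y‖ ^ p := by
  have hp0 : 0 < p := by linarith
  have hW0 : 0 < W := by linarith
  set m : ℝ := ∑ y, ‖f y‖ ^ p with hm
  have hw : ∀ y, 0 ≤ ‖f y‖ ^ p := fun y => Real.rpow_nonneg (norm_nonneg _) _
  have hm0 : 0 ≤ m := Finset.sum_nonneg fun y _ => hw y
  obtain ⟨good, hgood⟩ : ∃ good : Fin M → G → Prop, ∀ j x, good j x ↔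
      ∑ y ∈ univ.filter fun y => y - x ∈ H j, ‖f y‖ ^ p ≤ (Nat.card (H j) : ℝ) :=
    ⟨_, fun _ _ => Iff.rfl⟩
  have hcongr : ∀ j x y, y - x ∈ H j → good j x → good j y := by
    intro j x y hxy
    have : (univ.filter fun z => z - x ∈ H j) = univ.filter fun z => z - y ∈ H j := by
      ext z
      simp only [Finset.mem_filter, Finset.mem_univ, true_and]
      constructor
      · intro h
        have := (H j).sub_mem h hxy
        simpa using this
      · intro h
        have := (H j).add_mem h hxy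
        simpa using this
    rw [hgood, hgood, this]
    exact id
  have hgood_le : ∀ j y, good j y → ‖f y‖ ≤ a j := by
    intro j y hy
    rw [hgood] at hy
    have h1 : ‖f y‖ ^ p ≤ a j ^ p := by
      rw [ha]
      refine le_trans ?_ hy
      exact Finset.single_le_sum (f := fun y => ‖f y‖ ^ p) (fun z _ => hw z)
        (by simp [(H j).zero_mem])
    exact (Real.rpow_le_rpow_iff (norm_nonneg _) (ha0 j).le hp0).1 h1
  -- the sparse and the dense parts
  obtain ⟨s, hs⟩ : ∃ s : Fin M → G → ℂ, ∀ j y,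
      s j y = if good j y ∧ a j / W < ‖f y‖ then f y else 0 := ⟨_, fun _ _ => rfl⟩
  obtain ⟨d, hd⟩ : ∃ d : Fin M → G → ℂ, ∀ j y,
      d j y = if ‖f y‖ ≤ a j / W then f y else 0 := ⟨_, fun _ _ => rfl⟩
  set S : G → ℂ := fun x => ∑ j, ((a j)⁻¹ : ℂ) * cv (σ j) (s j) x with hS
  set D : G → ℂ := fun x => ∑ j, ((a j)⁻¹ : ℂ) * cv (σ j) (d j) x with hD
  have hsplit : ∀ x, (∀ j, good j x) → ∑ j, ((a j)⁻¹ : ℂ) * cv (σ j) f x = S x + D x := by
    intro x hx
    simp only [hS, hD, ← Finset.sum_add_distrib, ← mul_add]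
    refine Finset.sum_congr rfl fun j _ => ?_
    congr 1
    simp only [cv, ← Finset.sum_add_distrib, ← mul_add]
    refine Finset.sum_congr rfl fun y _ => ?_
    by_cases hxy : x - y ∈ H j
    · have hy : good j y := hcongr j x y (by simpa using (H j).neg_mem hxy) (hx j)
      congr 1
      rw [hs, hd]
      by_cases h : ‖f y‖ ≤ a j / W
      · simp [h, not_lt.2 h]
      · simp [h, not_le.1 h, hy]
    · simp [hsupp j _ hxy]
  have hnorm_inv : ∀ j, ‖((a j)⁻¹ : ℂ)‖ = (a j)⁻¹ := by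
    intro j
    rw [norm_inv, Complex.norm_real, Real.norm_of_nonneg (ha0 j).le]
  -- L2 bound for the dense part
  have hDbound : ∑ x, ‖D x‖ ^ 2 ≤ m := by
    have h1 : ∀ j, ∑ x, ‖((a j)⁻¹ : ℂ) * cv (σ j) (d j) x‖ ^ 2 ≤ W ^ (p - 2) * m := by
      intro j
      simp only [norm_mul, mul_pow, hnorm_inv, ← Finset.mul_sum]
      rw [sum_normSq_cv _ _ _ (hauto j), ← ha]
      have h2 : ∑ y, ‖d j y‖ ^ 2 ≤ (a j / W) ^ (2 - p) * m := by
        rw [hm, Finset.mul_sum]
        refine Finset.sum_le_sum fun y _ => ?_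
        rw [hd]
        split_ifs with h
        · exact sq_le_rpow_mul hp0 hp2 (norm_nonneg _) h
        · simp only [norm_zero, ne_eq, OfNat.ofNat_ne_zero, not_false_eq_true, zero_pow]
          exact mul_nonneg (Real.rpow_nonneg (div_pos (ha0 j) hW0).le _) (hw y)
      have h3 : (a j)⁻¹ ^ 2 * (a j ^ p * (a j / W) ^ (2 - p)) = W ^ (p - 2) := by
        rw [Real.div_rpow (ha0 j).le hW0.le, mul_div_assoc', ← Real.rpow_add (ha0 j),
          show p + (2 - p) = 2 by ring, Real.rpow_two, show p - 2 = -(2 - p) by ring,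
          Real.rpow_neg hW0.le]
        have := (ha0 j).ne'
        field_simp
      calc (a j)⁻¹ ^ 2 * (a j ^ p * ∑ y, ‖d j y‖ ^ 2)
          ≤ (a j)⁻¹ ^ 2 * (a j ^ p * ((a j / W) ^ (2 - p) * m)) := by
            have := Real.rpow_nonneg (ha0 j).le p
            gcongr
        _ = W ^ (p - 2) * m := by rw [← h3]; ring
    calc ∑ x, ‖D x‖ ^ 2 ≤ ∑ x, (M : ℝ) * ∑ j, ‖((a j)⁻¹ : ℂ) * cv (σ j) (d j) x‖ ^ 2 := by
          refine Finset.sum_le_sum fun x _ => ?_
          have h2 : ‖D x‖ ≤ ∑ j, ‖((a j)⁻¹ : ℂ) * cv (σ j) (d j) x‖ := norm_sum_le _ _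
          refine le_trans (pow_le_pow_left₀ (norm_nonneg _) h2 2) ?_
          have := sq_sum_le_card_mul_sum_sq (s := (univ : Finset (Fin M)))
            (f := fun j => ‖((a j)⁻¹ : ℂ) * cv (σ j) (d j) x‖)
          simpa using this
      _ = (M : ℝ) * ∑ j, ∑ x, ‖((a j)⁻¹ : ℂ) * cv (σ j) (d j) x‖ ^ 2 := by
          rw [← Finset.mul_sum, Finset.sum_comm]
      _ ≤ (M : ℝ) * ∑ _j : Fin M, W ^ (p - 2) * m := by
          gcongr with j
          exact h1 j
      _ = ((M : ℝ) ^ 2 * W ^ (p - 2)) * m := by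
          simp only [Finset.sum_const, Finset.card_univ, Fintype.card_fin, nsmul_eq_mul]; ring
      _ ≤ m := by nlinarith
  -- diagonal terms of the sparse part
  have hdiag : ∑ j, ∑ x, ‖((a j)⁻¹ : ℂ) * cv (σ j) (s j) x‖ ^ 2 ≤ m := by
    have h1 : ∀ j, ∑ x, ‖((a j)⁻¹ : ℂ) * cv (σ j) (s j) x‖ ^ 2
        ≤ ∑ y, if good j y ∧ a j / W < ‖f y‖ then ‖f y‖ ^ p else 0 := by
      intro j
      simp only [norm_mul, mul_pow, hnorm_inv, ← Finset.mul_sum]
      rw [sum_normSq_cv _ _ _ (hauto j), ← ha, Finset.mul_sum, Finset.mul_sum]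
      refine Finset.sum_le_sum fun y _ => ?_
      rw [hs]
      split_ifs with h
      · have h2 := sq_le_rpow_mul hp0 hp2 (norm_nonneg (f y)) (hgood_le j y h.1)
        have h3 : (a j)⁻¹ ^ 2 * (a j ^ p * (a j) ^ (2 - p)) = 1 := by
          rw [← Real.rpow_add (ha0 j), show p + (2 - p) = 2 by ring, Real.rpow_two]
          have := (ha0 j).ne'
          field_simp
        calc (a j)⁻¹ ^ 2 * (a j ^ p * ‖f y‖ ^ 2)
            ≤ (a j)⁻¹ ^ 2 * (a j ^ p * (a j ^ (2 - p) * ‖f y‖ ^ p)) := by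
              have := Real.rpow_nonneg (ha0 j).le p
              gcongr
          _ = ‖f y‖ ^ p := by
              rw [show (a j)⁻¹ ^ 2 * (a j ^ p * (a j ^ (2 - p) * ‖f y‖ ^ p))
                = ((a j)⁻¹ ^ 2 * (a j ^ p * (a j) ^ (2 - p))) * ‖f y‖ ^ p by ring, h3, one_mul]
      · simp
    refine le_trans (Finset.sum_le_sum fun j _ => h1 j) ?_
    rw [Finset.sum_comm]
    refine Finset.sum_le_sum fun y _ => ?_
    by_cases h : ∃ j, good j y ∧ a j / W < ‖f y‖
    · obtain ⟨j, hj⟩ := h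
      have huniq : ∀ i j, i < j → (good i y ∧ a i / W < ‖f y‖) →
          (good j y ∧ a j / W < ‖f y‖) → False := by
        intro i j hij hi hj
        have h1 := hgood_le i y hi.1
        have h2 := hgrow i j hij
        have h3 := hj.2
        rw [div_lt_iff₀ hW0] at h3
        nlinarith
      rw [Finset.sum_eq_single j]
      · simp [hj]
      · intro i _ hi
        rw [if_neg]
        intro h'
        rcases lt_or_gt_of_ne hi with h | h
        · exact huniq i j h h' hj
        · exact huniq j i h hj h'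
      · simp
    · push Not at h
      rw [Finset.sum_eq_zero]
      · exact hw y
      · intro j _
        rw [if_neg]
        intro h'
        exact absurd h'.2 (not_lt.2 (h j h'.1))
  -- cross terms of the sparse part
  have hs_le : ∀ j y, ‖s j y‖ ≤ (a j / W) ^ (1 - p) * (if good j y then ‖f y‖ ^ p else 0) := by
    intro j y
    have hc := div_pos (ha0 j) hW0
    rw [hs]
    by_cases h : good j y ∧ a j / W < ‖f y‖
    · rw [if_pos h, if_pos h.1]
      exact le_rpow_mul hp1 hc h.2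
    · rw [if_neg h, norm_zero]
      refine mul_nonneg (Real.rpow_nonneg hc.le _) ?_
      split_ifs
      · exact hw y
      · exact le_rfl
  have hcorr_zero : ∀ i j, i < j → ∀ y z, z - y ∉ H j → corr (σ i) (σ j) y z = 0 := by
    intro i j hij y z hyz
    refine Finset.sum_eq_zero fun x _ => ?_
    by_cases h1 : x - y ∈ H i
    · have h2 : x - z ∉ H j := by
        intro h2
        have := (H j).sub_mem (hH hij.le h1) h2
        exact hyz (by simpa using this)
      simp [hsupp j _ h2]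
    · simp [hsupp i _ h1]
  have hcr : ∀ i j, i < j → ‖∑ x, (((a i)⁻¹ : ℂ) * cv (σ i) (s i) x) *
      conj (((a j)⁻¹ : ℂ) * cv (σ j) (s j) x)‖ ≤ m / (M : ℝ) ^ 2 := by
    intro i j hij
    have hM : (0 : ℝ) < M := by exact_mod_cast Fin.pos i
    have e1 : ∑ x, (((a i)⁻¹ : ℂ) * cv (σ i) (s i) x) * conj (((a j)⁻¹ : ℂ) * cv (σ j) (s j) x)
        = ((a i)⁻¹ : ℂ) * conj ((a j)⁻¹ : ℂ) *
          ∑ y, ∑ z, s i y * conj (s j z) * corr (σ i) (σ j) y z := by
      rw [← sum_cv_mul_conj, Finset.mul_sum]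
      refine Finset.sum_congr rfl fun x _ => ?_
      rw [map_mul]; ring
    have hn0 : (0 : ℝ) < Nat.card (H i) := by exact_mod_cast Nat.card_pos
    have hsq : 0 < √(Nat.card (H i) : ℝ) := Real.sqrt_pos.2 hn0
    have inner : ∀ y, ‖∑ z, s i y * conj (s j z) * corr (σ i) (σ j) y z‖
        ≤ ‖s i y‖ * (√(Nat.card (H i)) * ((a j / W) ^ (1 - p) * a j ^ p)) := by
      intro y
      have hc := Real.rpow_nonneg (div_pos (ha0 j) hW0).le (1 - p)
      calc ‖∑ z, s i y * conj (s j z) * corr (σ i) (σ j) y z‖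
          ≤ ∑ z, ‖s i y‖ * (√(Nat.card (H i)) * ((a j / W) ^ (1 - p) *
              (if z - y ∈ H j ∧ good j y then ‖f z‖ ^ p else 0))) := by
            refine le_trans (norm_sum_le _ _) (Finset.sum_le_sum fun z _ => ?_)
            rw [norm_mul, norm_mul, mul_assoc, Complex.norm_conj]
            refine mul_le_mul_of_nonneg_left ?_ (norm_nonneg _)
            by_cases hz : z - y ∈ H j
            · rw [mul_comm]
              refine mul_le_mul (hcross i j hij y z) (le_trans (hs_le j z) ?_) (norm_nonneg _)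
                hsq.le
              refine mul_le_mul_of_nonneg_left ?_ hc
              by_cases hg : good j z
              · have : good j y := hcongr j z y (by simpa using (H j).neg_mem hz) hg
                simp [hg, hz, this]
              · rw [if_neg hg]
                split_ifs
                · exact hw z
                · exact le_rfl
            · simp [hcorr_zero i j hij y z hz, hz]
        _ = ‖s i y‖ * (√(Nat.card (H i)) * ((a j / W) ^ (1 - p) *
              ∑ z, (if z - y ∈ H j ∧ good j y then ‖f z‖ ^ p else 0))) := by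
            simp only [Finset.mul_sum]
        _ ≤ ‖s i y‖ * (√(Nat.card (H i)) * ((a j / W) ^ (1 - p) * a j ^ p)) := by
            gcongr
            by_cases hg : good j y
            · simp only [hg, and_true]
              rw [← Finset.sum_filter, ha]
              exact (hgood j y).1 hg
            · simp only [hg, and_false, if_false, Finset.sum_const_zero]
              exact Real.rpow_nonneg (ha0 j).le _
    have outer : ∑ y, ‖s i y‖ ≤ (a i / W) ^ (1 - p) * m := by
      rw [hm, Finset.mul_sum]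
      refine Finset.sum_le_sum fun y _ => le_trans (hs_le i y) ?_
      refine mul_le_mul_of_nonneg_left ?_ (Real.rpow_nonneg (div_pos (ha0 i) hW0).le _)
      split_ifs
      · exact le_rfl
      · exact hw y
    have key : ∀ l, (a l / W) ^ (1 - p) * a l ^ p = a l * W ^ (p - 1) := by
      intro l
      rw [Real.div_rpow (ha0 l).le hW0.le, div_mul_eq_mul_div, ← Real.rpow_add (ha0 l),
        show 1 - p + p = 1 by ring, Real.rpow_one, show p - 1 = -(1 - p) by ring,
        Real.rpow_neg hW0.le, div_eq_mul_inv]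
    have hWp : 0 < W ^ (p - 1) := Real.rpow_pos_of_pos hW0 _
    rw [e1, norm_mul, norm_mul, Complex.norm_conj, hnorm_inv, hnorm_inv]
    have hai := ha0 i
    have haj := ha0 j
    calc (a i)⁻¹ * (a j)⁻¹ * ‖∑ y, ∑ z, s i y * conj (s j z) * corr (σ i) (σ j) y z‖
        ≤ (a i)⁻¹ * (a j)⁻¹ *
          ∑ y, ‖s i y‖ * (√(Nat.card (H i)) * ((a j / W) ^ (1 - p) * a j ^ p)) := by
          gcongr
          exact le_trans (norm_sum_le _ _) (Finset.sum_le_sum fun y _ => inner y)
      _ = (a i)⁻¹ * (a j)⁻¹ * ((∑ y, ‖s i y‖) * (√(Nat.card (H i)) * (a j * W ^ (p - 1)))) := by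
          rw [← Finset.sum_mul, key]
      _ ≤ (a i)⁻¹ * (a j)⁻¹ *
          (((a i / W) ^ (1 - p) * m) * (√(Nat.card (H i)) * (a j * W ^ (p - 1)))) := by
          gcongr
      _ = m * (W ^ (p - 1)) ^ 2 / √(Nat.card (H i)) := by
          have h1 : (a i / W) ^ (1 - p) = a i * W ^ (p - 1) / Nat.card (H i) := by
            rw [← key, ← ha]
            have := (Real.rpow_pos_of_pos hai p).ne'
            field_simp
          have h2 : (Nat.card (H i) : ℝ) = √(Nat.card (H i)) * √(Nat.card (H i)) :=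
            (Real.mul_self_sqrt hn0.le).symm
          rw [h1]
          generalize √(Nat.card (H i) : ℝ) = r at *
          rw [h2]
          field_simp
      _ ≤ m / (M : ℝ) ^ 2 := by
          rw [div_le_div_iff₀ hsq (by positivity)]
          have := hW2 i
          nlinarith
  have hSbound : ∑ x, ‖S x‖ ^ 2 ≤ 2 * m := by
    obtain ⟨u, hu⟩ : ∃ u : Fin M → G → ℂ, ∀ j x, u j x = ((a j)⁻¹ : ℂ) * cv (σ j) (s j) x :=
      ⟨_, fun _ _ => rfl⟩
    simp only [← hu] at hcr hdiag
    have e1 : ((∑ x, ‖S x‖ ^ 2 : ℝ) : ℂ) = ∑ i, ∑ j, ∑ x, u i x * conj (u j x) := by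
      have : ∀ x, ((‖S x‖ ^ 2 : ℝ) : ℂ) = ∑ i, ∑ j, u i x * conj (u j x) := by
        intro x
        rw [← Complex.normSq_eq_norm_sq, ← Complex.mul_conj]
        simp only [hS, ← hu, map_sum, Finset.sum_mul_sum]
      rw [Complex.ofReal_sum]
      simp only [this]
      rw [Finset.sum_comm]
      refine Finset.sum_congr rfl fun i _ => ?_
      rw [Finset.sum_comm]
    have e2 : ∀ i j, ‖∑ x, u i x * conj (u j x)‖
        ≤ (if i = j then ∑ x, ‖u i x‖ ^ 2 else 0) + m / (M : ℝ) ^ 2 := by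
      intro i j
      rcases lt_trichotomy i j with h | h | h
      · rw [if_neg h.ne, zero_add]; exact hcr i j h
      · subst h
        rw [if_pos rfl]
        have : 0 ≤ m / (M : ℝ) ^ 2 := by positivity
        refine le_trans (norm_sum_le _ _) (le_trans (le_of_eq ?_) (le_add_of_nonneg_right this))
        refine Finset.sum_congr rfl fun x _ => ?_
        rw [norm_mul, Complex.norm_conj, sq]
      · rw [if_neg h.ne', zero_add]
        have : ∑ x, u i x * conj (u j x) = conj (∑ x, u j x * conj (u i x)) := by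
          simp only [map_sum, map_mul, Complex.conj_conj]
          exact Finset.sum_congr rfl fun x _ => mul_comm _ _
        rw [this, Complex.norm_conj]
        exact hcr j i h
    have e3 : ∑ x, ‖S x‖ ^ 2 = ‖∑ i, ∑ j, ∑ x, u i x * conj (u j x)‖ := by
      rw [← e1, Complex.norm_real, Real.norm_of_nonneg (by positivity)]
    rw [e3]
    calc ‖∑ i, ∑ j, ∑ x, u i x * conj (u j x)‖
        ≤ ∑ i, ∑ j, ((if i = j then ∑ x, ‖u i x‖ ^ 2 else 0) + m / (M : ℝ) ^ 2) := by
          refine le_trans (norm_sum_le _ _) (Finset.sum_le_sum fun i _ => ?_)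
          exact le_trans (norm_sum_le _ _) (Finset.sum_le_sum fun j _ => e2 i j)
      _ = ∑ i, ∑ x, ‖u i x‖ ^ 2 + (M : ℝ) * ((M : ℝ) * (m / (M : ℝ) ^ 2)) := by
          simp [Finset.sum_add_distrib]
      _ ≤ m + m := by
          refine add_le_add hdiag ?_
          rcases Nat.eq_zero_or_pos M with h | h
          · subst h; simpa using hm0
          · have : (0 : ℝ) < M := by exact_mod_cast h
            apply le_of_eq; field_simp
      _ = 2 * m := by ring
  have hΩ := card_bad_le H hH (fun y => ‖f y‖ ^ p) hw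
  have hsub : (univ.filter fun x => 2 < ‖∑ j, ((a j)⁻¹ : ℂ) * cv (σ j) f x‖) ⊆
      ((univ.filter fun x => ∃ j, (Nat.card (H j) : ℝ) <
        ∑ y ∈ univ.filter fun y => y - x ∈ H j, ‖f y‖ ^ p) ∪
        (univ.filter fun x => 1 < ‖S x‖)) ∪ (univ.filter fun x => 1 < ‖D x‖) := by
    intro x hx
    simp only [Finset.mem_filter, Finset.mem_univ, true_and, Finset.mem_union] at hx ⊢
    by_contra hcon
    push Not at hcon
    obtain ⟨⟨h1, h2⟩, h3⟩ := hcon
    rw [hsplit x fun j => (hgood j x).2 (h1 j)] at hx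
    have := norm_add_le (S x) (D x)
    linarith
  have h1 := Finset.card_le_card hsub
  have h2 := le_trans h1 (le_trans (Finset.card_union_le _ _)
    (Nat.add_le_add_right (Finset.card_union_le _ _) _))
  have h3 : ((univ.filter fun x => 2 < ‖∑ j, ((a j)⁻¹ : ℂ) * cv (σ j) f x‖).card : ℝ) ≤ _ :=
    Nat.cast_le.2 h2
  push_cast at h3
  have h4 := card_gt_le_sum_sq S
  have h5 := card_gt_le_sum_sq D
  linarith

end Pool.Agent.MP_f2c8fe_an

end MrgPart0

-- ======== part 1: formerly Pool.Agent.MP_f2c8fe_an.Chirp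
section MrgPart1

/-!
Quadratic phases on principal ideals of a finite commutative ring and their correlations.
-/

open Finset
open scoped ComplexConjugate

namespace Pool.Agent.MP_f2c8fe_an

variable {R : Type*} [CommRing R]

/-- the multiples of d -/
def rng (d : R) : AddSubgroup R := (AddMonoidHom.mulLeft d).range

lemma mem_rng {d x : R} : x ∈ rng d ↔ ∃ t, d * t = x := Iff.rfl

open Classical in
/-- the quadratic phase on the multiples of d -/
noncomputable def chirp (ψ : AddChar R ℂ) (d x : R) : ℂ :=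
  if h : ∃ t, d * t = x then ψ (d * (Classical.choose h) ^ 2) else 0

lemma chirp_mul (ψ : AddChar R ℂ) (d t : R) : chirp ψ d (d * t) = ψ (d * t ^ 2) := by
  have h : ∃ s, d * s = d * t := ⟨t, rfl⟩
  rw [chirp, dif_pos h]
  have h1 := Classical.choose_spec h
  congr 1
  generalize Classical.choose h = s at h1
  linear_combination (s + t) * h1

lemma chirp_zero (ψ : AddChar R ℂ) {d x : R} (h : x ∉ rng d) : chirp ψ d x = 0 := by
  rw [chirp, dif_neg (fun h' => h (mem_rng.2 h'))]

variable [Fintype R]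

lemma norm_chirp (ψ : AddChar R ℂ) {d x : R} (h : x ∈ rng d) : ‖chirp ψ d x‖ = 1 := by
  obtain ⟨t, rfl⟩ := mem_rng.1 h
  rw [chirp_mul, AddChar.norm_apply]

lemma norm_chirp_le (ψ : AddChar R ℂ) (d x : R) : ‖chirp ψ d x‖ ≤ 1 := by
  by_cases h : x ∈ rng d
  · exact (norm_chirp ψ h).le
  · simp [chirp_zero ψ h]

variable [DecidableEq R]

/-- size of the annihilator of d -/
def kerc (d : R) : ℕ := (univ.filter fun h => d * h = 0).card

lemma kerc_pos (d : R) : 0 < kerc d := Finset.card_pos.2 ⟨0, by simp⟩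

open Classical in
lemma sum_mul_left (d : R) (g : R → ℂ) :
    ∑ t, g (d * t) = kerc d * ∑ x, if x ∈ rng d then g x else 0 := by
  rw [← Finset.sum_fiberwise (s := univ) (g := fun t => d * t) (f := fun t => g (d * t)),
    Finset.mul_sum]
  refine Finset.sum_congr rfl fun x _ => ?_
  rw [Finset.sum_congr rfl (g := fun _ => g x) (fun t ht => by rw [(Finset.mem_filter.1 ht).2]),
    Finset.sum_const, nsmul_eq_mul]
  by_cases h : x ∈ rng d
  · obtain ⟨s, rfl⟩ := mem_rng.1 h
    rw [if_pos h]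
    congr 2
    refine Finset.card_bij (fun t _ => t - s) ?_ ?_ ?_
    · intro t ht
      have := (Finset.mem_filter.1 ht).2
      simp [mul_sub, this]
    · intro t _ u _ h; simpa using h
    · intro t ht
      have := (Finset.mem_filter.1 ht).2
      exact ⟨t + s, by simp [mul_add, this], by simp⟩
  · rw [if_neg h]
    have : (univ.filter fun t => d * t = x) = ∅ := by
      ext t
      simp only [Finset.mem_filter, Finset.mem_univ, true_and, Finset.notMem_empty, iff_false]
      exact fun ht => h ⟨t, ht⟩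
    simp [this]

lemma kerc_mul_card (d : R) : kerc d * Nat.card (rng d) = Fintype.card R := by
  classical
  have h := sum_mul_left d (fun _ => 1)
  simp only [Finset.sum_const, Finset.card_univ, nsmul_eq_mul, mul_one, Finset.sum_boole] at h
  rw [Nat.card_eq_fintype_card, Fintype.card_subtype]
  exact_mod_cast h.symm

lemma gauss_bound {ψ : AddChar R ℂ} (hψ : ψ.IsPrimitive) (h2 : IsUnit (2 : R)) {a : R}
    (ha : IsUnit a) (b d : R) :
    ‖∑ t, ψ (d * (a * t ^ 2 + b * t))‖ ^ 2 ≤ Fintype.card R * kerc d := by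
  have e1 : ((‖∑ t, ψ (d * (a * t ^ 2 + b * t))‖ ^ 2 : ℝ) : ℂ)
      = ∑ h, ψ (d * (a * h ^ 2 + b * h)) * (if d * h = 0 then (Fintype.card R : ℂ) else 0) := by
    rw [← Complex.normSq_eq_norm_sq, ← Complex.mul_conj, map_sum, Finset.sum_mul_sum,
      Finset.sum_comm]
    have e2 : ∀ t : R, ∑ s, ψ (d * (a * s ^ 2 + b * s)) * conj (ψ (d * (a * t ^ 2 + b * t)))
        = ∑ h, ψ (d * (a * h ^ 2 + b * h)) * ψ (t * (2 * a * (d * h))) := by
      intro t
      rw [← Equiv.sum_comp (Equiv.addLeft t)]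
      refine Finset.sum_congr rfl fun h _ => ?_
      rw [← AddChar.map_neg_eq_conj, ← AddChar.map_add_eq_mul, ← AddChar.map_add_eq_mul]
      congr 1
      simp only [Equiv.coe_addLeft]
      ring
    simp only [e2]
    rw [Finset.sum_comm]
    refine Finset.sum_congr rfl fun h _ => ?_
    rw [← Finset.mul_sum, AddChar.sum_mulShift _ hψ]
    have : 2 * a * (d * h) = 0 ↔ d * h = 0 := (h2.mul ha).mul_right_eq_zero
    simp only [this]
    split_ifs <;> simp
  have e3 : ‖∑ t, ψ (d * (a * t ^ 2 + b * t))‖ ^ 2 = ‖∑ h, ψ (d * (a * h ^ 2 + b * h)) *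
      (if d * h = 0 then (Fintype.card R : ℂ) else 0)‖ := by
    rw [← e1, Complex.norm_real, Real.norm_of_nonneg (by positivity)]
  rw [e3]
  refine le_trans (norm_sum_le _ _) ?_
  have e4 : ∀ h : R, ‖ψ (d * (a * h ^ 2 + b * h)) *
      (if d * h = 0 then (Fintype.card R : ℂ) else 0)‖
      = if d * h = 0 then (Fintype.card R : ℝ) else 0 := by
    intro h
    rw [norm_mul, AddChar.norm_apply, one_mul]
    split_ifs <;> simp
  simp only [e4]
  rw [← Finset.sum_filter, Finset.sum_const, nsmul_eq_mul, kerc, mul_comm]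

lemma kerc_mul_corr (ψ : AddChar R ℂ) (e c y u : R) :
    kerc (e * c) * corr (chirp ψ (e * c)) (chirp ψ e) (y + e * u) y
      = ψ (-(e * u ^ 2)) * ∑ t, ψ (e * c * ((1 - c) * t ^ 2 + (-2 * u) * t)) := by
  classical
  have e1 : corr (chirp ψ (e * c)) (chirp ψ e) (y + e * u) y
      = ∑ x, if x ∈ rng (e * c) then chirp ψ (e * c) x * conj (chirp ψ e (x + e * u)) else 0 := by
    rw [corr, ← Equiv.sum_comp (Equiv.addRight (y + e * u))]
    refine Finset.sum_congr rfl fun x _ => ?_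
    simp only [Equiv.coe_addRight, add_sub_cancel_right]
    split_ifs with h
    · congr 3; ring
    · simp [chirp_zero ψ h]
  rw [e1, ← sum_mul_left, Finset.mul_sum]
  refine Finset.sum_congr rfl fun t _ => ?_
  rw [chirp_mul, show e * c * t + e * u = e * (c * t + u) by ring, chirp_mul,
    ← AddChar.map_neg_eq_conj, ← AddChar.map_add_eq_mul, ← AddChar.map_add_eq_mul]
  congr 1
  ring

omit [DecidableEq R] in
lemma corr_eq_zero (ψ : AddChar R ℂ) (e c y z : R) (h : y - z ∉ rng e) :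
    corr (chirp ψ (e * c)) (chirp ψ e) y z = 0 := by
  refine Finset.sum_eq_zero fun x _ => ?_
  by_cases h1 : x - y ∈ rng (e * c)
  · have h2 : x - z ∉ rng e := by
      intro h2
      obtain ⟨s, hs⟩ := mem_rng.1 h1
      obtain ⟨t, ht⟩ := mem_rng.1 h2
      exact h ⟨t - c * s, by
        show e * (t - c * s) = y - z
        rw [mul_sub, ht, ← mul_assoc, hs]; ring⟩
    simp [chirp_zero ψ h2]
  · simp [chirp_zero ψ h1]

lemma corr_auto {ψ : AddChar R ℂ} (hψ : ψ.IsPrimitive) (h2 : IsUnit (2 : R)) (d y z : R) :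
    corr (chirp ψ d) (chirp ψ d) y z = if y = z then ((Nat.card (rng d) : ℝ) : ℂ) else 0 := by
  have hk : (kerc d : ℂ) ≠ 0 := by exact_mod_cast (kerc_pos d).ne'
  by_cases h : y - z ∈ rng d
  · obtain ⟨u, hu⟩ := mem_rng.1 h
    have hy : y = z + d * u := by rw [hu]; ring
    have h1 := kerc_mul_corr ψ d 1 z u
    simp only [mul_one, sub_self, zero_mul, zero_add] at h1
    have h3 : ∑ t, ψ (d * (-2 * u * t)) = ∑ t, ψ (t * (-2 * (d * u))) :=
      Finset.sum_congr rfl fun t _ => by congr 1; ring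
    rw [h3, AddChar.sum_mulShift _ hψ, ← hy] at h1
    have h4 : -2 * (d * u) = 0 ↔ y = z := by
      rw [h2.neg.mul_right_eq_zero, hu, sub_eq_zero]
    apply mul_left_cancel₀ hk
    rw [h1]
    by_cases hyz : y = z
    · have h5 : d * u ^ 2 = 0 := by
        have : d * u = 0 := by rw [hu, hyz, sub_self]
        rw [sq, ← mul_assoc, this, zero_mul]
      rw [if_pos (h4.2 hyz), if_pos hyz, h5, ← kerc_mul_card d]
      simp
    · rw [if_neg (fun h => hyz (h4.1 h)), if_neg hyz]
      simp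
  · have h1 := corr_eq_zero ψ d 1 y z h
    rw [mul_one] at h1
    rw [h1, if_neg]
    rintro rfl
    exact h (by rw [sub_self]; exact (rng d).zero_mem)

lemma corr_cross {ψ : AddChar R ℂ} (hψ : ψ.IsPrimitive) (h2 : IsUnit (2 : R)) (e c y z : R)
    (hc : IsUnit (1 - c)) :
    ‖corr (chirp ψ (e * c)) (chirp ψ e) y z‖ ≤ √(Nat.card (rng (e * c))) := by
  by_cases h : y - z ∈ rng e
  · obtain ⟨u, hu⟩ := mem_rng.1 h
    have hy : y = z + e * u := by rw [hu]; ring
    have h1 := congrArg norm (kerc_mul_corr ψ e c z u)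
    rw [← hy, norm_mul, norm_mul, AddChar.norm_apply, one_mul, Complex.norm_natCast] at h1
    have h3 := gauss_bound hψ h2 hc (-2 * u) (e * c)
    rw [← h1, ← kerc_mul_card (e * c)] at h3
    have hk : (0 : ℝ) < kerc (e * c) := by exact_mod_cast kerc_pos _
    apply Real.le_sqrt_of_sq_le
    push_cast at h3
    have h4 : (kerc (e * c) : ℝ) ^ 2 * ‖corr (chirp ψ (e * c)) (chirp ψ e) y z‖ ^ 2
        ≤ (kerc (e * c) : ℝ) ^ 2 * Nat.card (rng (e * c)) := by nlinarith
    exact le_of_mul_le_mul_left h4 (by positivity)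
  · rw [corr_eq_zero ψ e c y z h, norm_zero]
    exact Real.sqrt_nonneg _

end Pool.Agent.MP_f2c8fe_an

end MrgPart1

-- ======== part 2: formerly Pool.Agent.MP_f2c8fe_an.Cyclic
section MrgPart2

/-!
The kernel on a cyclic group.
-/

open Finset
open scoped ComplexConjugate

namespace Pool.Agent.MP_f2c8fe_an

lemma norm_sum_ge {G : Type*} [AddCommGroup G] {M : ℕ} {W : ℝ} (hW : 1 ≤ W) (hWM : 2 * M ≤ W)
    (H : Fin M → AddSubgroup G) (σ : Fin M → G → ℂ)
    (hsupp : ∀ j x, x ∉ H j → σ j x = 0) (hone : ∀ j x, x ∈ H j → ‖σ j x‖ = 1)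
    (a : Fin M → ℝ) (ha0 : ∀ j, 0 < a j) (hgrow : ∀ i j, i < j → W * a i ≤ a j)
    (j : Fin M) (x : G) (hx : x ∈ H j) :
    (a j)⁻¹ / 2 ≤ ‖∑ l, ((a l)⁻¹ : ℂ) * σ l x‖ := by
  classical
  obtain ⟨i, hi, hmin⟩ := Finset.exists_min_image (univ.filter fun l => x ∈ H l) id
    ⟨j, by simpa using hx⟩
  have hi' : x ∈ H i := by simpa using hi
  have hnorm_inv : ∀ j, ‖((a j)⁻¹ : ℂ)‖ = (a j)⁻¹ := by
    intro j
    rw [norm_inv, Complex.norm_real, Real.norm_of_nonneg (ha0 j).le]
  have hW0 : 0 < W := by linarith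
  have hai := ha0 i
  have hij : (a j)⁻¹ ≤ (a i)⁻¹ := by
    have h : i ≤ j := hmin j (by simpa using hx)
    rcases h.eq_or_lt with h | h
    · rw [h]
    · have := hgrow i j h
      exact inv_anti₀ hai (by nlinarith)
  have hrest : ‖∑ l ∈ univ.erase i, ((a l)⁻¹ : ℂ) * σ l x‖ ≤ (a i)⁻¹ / 2 := by
    calc ‖∑ l ∈ univ.erase i, ((a l)⁻¹ : ℂ) * σ l x‖ ≤ ∑ l ∈ univ.erase i, (W * a i)⁻¹ := by
          refine le_trans (norm_sum_le _ _) (Finset.sum_le_sum fun l hl => ?_)
          by_cases h : x ∈ H l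
          · have h1 : i ≤ l := hmin l (by simpa using h)
            have h2 : i < l := lt_of_le_of_ne h1 (Finset.ne_of_mem_erase hl).symm
            rw [norm_mul, hone l x h, mul_one, hnorm_inv]
            exact inv_anti₀ (by positivity) (hgrow i l h2)
          · rw [hsupp l x h, mul_zero, norm_zero]
            positivity
      _ ≤ ∑ _l : Fin M, (W * a i)⁻¹ :=
          Finset.sum_le_sum_of_subset_of_nonneg (Finset.subset_univ _) fun _ _ _ => by positivity
      _ = M * (W * a i)⁻¹ := by simp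
      _ ≤ (a i)⁻¹ / 2 := by
          rw [mul_inv, ← mul_assoc, mul_comm, div_eq_mul_inv]
          refine mul_le_mul_of_nonneg_left ?_ (by positivity)
          rw [← div_eq_mul_inv, div_le_iff₀ hW0]
          linarith
  rw [← Finset.add_sum_erase _ _ (Finset.mem_univ i)]
  have h1 : ‖((a i)⁻¹ : ℂ) * σ i x‖ = (a i)⁻¹ := by
    rw [norm_mul, hone i x hi', mul_one, hnorm_inv]
  have h2 := norm_sub_le (((a i)⁻¹ : ℂ) * σ i x + ∑ l ∈ univ.erase i, ((a l)⁻¹ : ℂ) * σ l x)
    (∑ l ∈ univ.erase i, ((a l)⁻¹ : ℂ) * σ l x)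
  rw [add_sub_cancel_right, h1] at h2
  linarith

lemma card_rng_zmod {N : ℕ} [NeZero N] (D : ℕ) :
    Nat.card (rng (D : ZMod N)) = N / N.gcd D := by
  have : rng (D : ZMod N) = AddSubgroup.zmultiples (D : ZMod N) := by
    ext x
    rw [mem_rng, AddSubgroup.mem_zmultiples_iff]
    constructor
    · rintro ⟨t, rfl⟩
      obtain ⟨k, rfl⟩ := ZMod.intCast_surjective t
      exact ⟨k, by rw [zsmul_eq_mul, mul_comm]⟩
    · rintro ⟨k, rfl⟩
      exact ⟨k, by rw [zsmul_eq_mul, mul_comm]⟩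
  rw [this, Nat.card_zmultiples, ZMod.addOrderOf_coe _ (NeZero.ne N)]

open Classical in
theorem exists_cyclic_kernel {p : ℝ} (hp1 : 1 < p) (hp2 : p < 2) (M : ℕ) :
    ∃ (N : ℕ) (_ : NeZero N) (κ : ZMod N → ℂ) (n : Fin M → ℕ),
      (∀ f : ZMod N → ℂ, ((univ.filter fun x => 2 < ‖cv κ f x‖).card : ℝ) ≤ 4 * ∑ y, ‖f y‖ ^ p) ∧
      (∀ j, 0 < n j) ∧ (∀ i j, i < j → 2 * n i ≤ n j) ∧
      ∀ j, ∃ A : Finset ℕ, n j ≤ 2 * A.card ∧
        ∀ m ∈ A, 2 * m ≤ N ∧ ((n j : ℝ) ^ (1 / p))⁻¹ / 2 ≤ ‖κ m‖ := by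
  have hp0 : 0 < p := by linarith
  -- choice of the parameter
  obtain ⟨w, hwodd, hw2, hwM, hwp⟩ : ∃ w : ℕ, Odd w ∧ 2 ≤ w ∧ 2 * M ≤ w ∧
      (M : ℝ) ^ 2 ≤ (w : ℝ) ^ (2 - p) := by
    have h1 : Filter.Tendsto (fun k : ℕ => ((2 * k + 1 : ℕ) : ℝ) ^ (2 - p)) Filter.atTop
        Filter.atTop := by
      refine (tendsto_rpow_atTop (by linarith)).comp ?_
      refine tendsto_natCast_atTop_atTop.comp ?_
      exact Filter.tendsto_atTop_mono (fun k => by simp only [id]; omega) Filter.tendsto_id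
    obtain ⟨k, hk⟩ := ((h1.eventually_ge_atTop ((M : ℝ) ^ 2)).and
      (Filter.eventually_ge_atTop (M + 1))).exists
    exact ⟨2 * k + 1, ⟨k, rfl⟩, by omega, by omega, hk.1⟩
  have hW : (1 : ℝ) ≤ w := by exact_mod_cast (by omega : 1 ≤ w)
  have hW0 : (0 : ℝ) < w := by linarith
  set L : ℕ := w ^ 6 with hL
  have hL2 : 2 ≤ L := le_trans hw2 (Nat.le_self_pow (by norm_num) w)
  have hL0 : 0 < L := by omega
  have hN : NeZero (L ^ M) := ⟨by positivity⟩
  set d : Fin M → ZMod (L ^ M) := fun j => ((L ^ (M - 1 - j) : ℕ) : ZMod (L ^ M)) with hd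
  have hcard : ∀ j : Fin M, Nat.card (rng (d j)) = L ^ ((j : ℕ) + 1) := by
    intro j
    have hj := j.2
    rw [hd, card_rng_zmod, Nat.gcd_eq_right (Nat.pow_dvd_pow _ (by omega)),
      Nat.pow_div (by omega) hL0]
    congr 1
    omega
  have hdd : ∀ i j : Fin M, i ≤ j → d i = d j * (L : ZMod (L ^ M)) ^ ((j : ℕ) - i) := by
    intro i j hij
    have hj := j.2
    have hij' : (i : ℕ) ≤ j := hij
    simp only [hd]
    push_cast
    rw [← pow_add]
    congr 1
    omega
  have hmono : Monotone fun j => rng (d j) := by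
    intro i j hij x hx
    obtain ⟨t, rfl⟩ := mem_rng.1 hx
    exact mem_rng.2 ⟨_, by rw [hdd i j hij, mul_assoc]⟩
  have h2 : IsUnit (2 : ZMod (L ^ M)) := by
    have : IsUnit ((2 : ℕ) : ZMod (L ^ M)) := by
      rw [ZMod.isUnit_iff_coprime, Nat.coprime_two_left]
      exact (hwodd.pow).pow
    exact_mod_cast this
  have hnil : IsNilpotent (L : ZMod (L ^ M)) := ⟨M, by exact_mod_cast ZMod.natCast_self (L ^ M)⟩
  set ψ : AddChar (ZMod (L ^ M)) ℂ := ZMod.stdAddChar with hψ
  have hprim : ψ.IsPrimitive := ZMod.isPrimitive_stdAddChar _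
  set a : Fin M → ℝ := fun j => ((L ^ ((j : ℕ) + 1) : ℕ) : ℝ) ^ (1 / p) with ha
  have ha0 : ∀ j, 0 < a j := fun j => Real.rpow_pos_of_pos (by positivity) _
  have hap : ∀ j, a j ^ p = Nat.card (rng (d j)) := by
    intro j
    rw [hcard, ha, ← Real.rpow_mul (by positivity), one_div_mul_cancel hp0.ne', Real.rpow_one]
  have hgrow : ∀ i j, i < j → (w : ℝ) * a i ≤ a j := by
    intro i j hij
    have hij' : (i : ℕ) < j := hij
    have hai := ha0 i
    rw [← Real.rpow_le_rpow_iff (by positivity) (ha0 j).le hp0,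
      Real.mul_rpow hW0.le (ha0 i).le, hap, hap, hcard, hcard]
    have h1 : (w : ℝ) ^ p ≤ L := by
      calc (w : ℝ) ^ p ≤ (w : ℝ) ^ ((6 : ℕ) : ℝ) :=
            Real.rpow_le_rpow_of_exponent_le hW (by push_cast; linarith)
        _ = L := by rw [Real.rpow_natCast, hL]; push_cast; rfl
    have h3 : L * L ^ ((i : ℕ) + 1) ≤ L ^ ((j : ℕ) + 1) := by
      rw [← pow_succ']
      exact Nat.pow_le_pow_right hL0 (by omega)
    calc (w : ℝ) ^ p * ((L ^ ((i : ℕ) + 1) : ℕ) : ℝ) ≤ L * ((L ^ ((i : ℕ) + 1) : ℕ) : ℝ) := by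
          gcongr
      _ ≤ _ := by exact_mod_cast h3
  have hW1 : (M : ℝ) ^ 2 * (w : ℝ) ^ (p - 2) ≤ 1 := by
    rw [show p - 2 = -(2 - p) by ring, Real.rpow_neg hW0.le, ← div_eq_mul_inv,
      div_le_one (Real.rpow_pos_of_pos hW0 _)]
    exact hwp
  have hW2 : ∀ i, (M : ℝ) ^ 2 * ((w : ℝ) ^ (p - 1)) ^ 2 ≤ √(Nat.card (rng (d i))) := by
    intro i
    have h1 : (w : ℝ) ^ (2 - p) ≤ w := by
      simpa using Real.rpow_le_rpow_of_exponent_le hW (show 2 - p ≤ 1 by linarith)
    have h3 : (w : ℝ) ^ (p - 1) ≤ w := by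
      simpa using Real.rpow_le_rpow_of_exponent_le hW (show p - 1 ≤ 1 by linarith)
    have h4 : 0 ≤ (w : ℝ) ^ (p - 1) := Real.rpow_nonneg hW0.le _
    apply Real.le_sqrt_of_sq_le
    rw [hcard]
    have h5 : L ≤ L ^ ((i : ℕ) + 1) := Nat.le_self_pow (by omega) _
    calc ((M : ℝ) ^ 2 * ((w : ℝ) ^ (p - 1)) ^ 2) ^ 2 ≤ ((w : ℝ) * (w : ℝ) ^ 2) ^ 2 := by
          gcongr
          exact hwp.trans h1
      _ = (L : ℝ) := by rw [hL]; push_cast; ring
      _ ≤ ((L ^ ((i : ℕ) + 1) : ℕ) : ℝ) := by exact_mod_cast h5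
  have hcross : ∀ i j, i < j → ∀ y z,
      ‖corr (chirp ψ (d i)) (chirp ψ (d j)) y z‖ ≤ √(Nat.card (rng (d i))) := by
    intro i j hij y z
    have hij' : (i : ℕ) < j := hij
    rw [hdd i j hij.le]
    refine corr_cross hprim h2 _ _ _ _ (IsNilpotent.isUnit_one_sub ?_)
    exact hnil.pow_of_pos (by omega)
  refine ⟨L ^ M, hN, fun x => ∑ j, ((a j)⁻¹ : ℂ) * chirp ψ (d j) x,
    fun j => L ^ ((j : ℕ) + 1), ?_, fun j => by positivity, ?_, ?_⟩
  · intro f
    have h := weak_finite hp1 hp2 hW (fun j => rng (d j)) hmono (fun j => chirp ψ (d j))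
      (fun j x hx => chirp_zero ψ hx)
      (fun j y z => by convert corr_auto hprim h2 (d j) y z) hcross a ha0 hap hgrow hW1 hW2 f
    have e : ∀ x, cv (fun x => ∑ j, ((a j)⁻¹ : ℂ) * chirp ψ (d j) x) f x
        = ∑ j, ((a j)⁻¹ : ℂ) * cv (chirp ψ (d j)) f x := by
      intro x
      simp only [cv, Finset.sum_mul, Finset.mul_sum]
      rw [Finset.sum_comm]
      simp only [mul_assoc]
    simp only [e]
    exact h
  · intro i j hij
    have hij' : (i : ℕ) < j := hij
    calc 2 * L ^ ((i : ℕ) + 1) ≤ L * L ^ ((i : ℕ) + 1) := Nat.mul_le_mul_right _ hL2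
      _ = L ^ ((i : ℕ) + 1 + 1) := by rw [← pow_succ']
      _ ≤ _ := Nat.pow_le_pow_right hL0 (by omega)
  · intro j
    have hj := j.2
    have hD : 0 < L ^ (M - 1 - j) := by positivity
    refine ⟨(range ((L ^ ((j : ℕ) + 1) + 1) / 2)).image fun t => L ^ (M - 1 - j) * t, ?_, ?_⟩
    · rw [Finset.card_image_of_injective _ (mul_right_injective₀ hD.ne'), Finset.card_range]
      show L ^ ((j : ℕ) + 1) ≤ _
      omega
    · intro m hm
      obtain ⟨t, ht, rfl⟩ := Finset.mem_image.1 hm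
      have ht' := Finset.mem_range.1 ht
      constructor
      · have h1 : 2 * t ≤ L ^ ((j : ℕ) + 1) := by omega
        calc 2 * (L ^ (M - 1 - j) * t) = L ^ (M - 1 - j) * (2 * t) := by ring
          _ ≤ L ^ (M - 1 - j) * L ^ ((j : ℕ) + 1) := Nat.mul_le_mul_left _ h1
          _ = L ^ M := by rw [← pow_add]; congr 1; omega
      · refine norm_sum_ge hW (by exact_mod_cast hwM) (fun j => rng (d j))
          (fun j => chirp ψ (d j)) (fun j x hx => chirp_zero ψ hx)
          (fun j x hx => norm_chirp ψ hx) a ha0 hgrow j _ ?_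
        exact mem_rng.2 ⟨t, by simp [hd]⟩

end Pool.Agent.MP_f2c8fe_an

end MrgPart2

-- ======== part 3: formerly Pool.Agent.MP_f2c8fe_an.Transfer
section MrgPart3

/-!
Transference of the weak type estimate from a cyclic group to a group with invariant measure.
-/

open Finset MeasureTheory
open scoped ENNReal

namespace Pool.Agent.MP_f2c8fe_an

/-- the constant in the truncated estimate -/
noncomputable def cst (p : ℝ) : ℝ := 32 / (1 - 2 ^ (1 - p))

lemma two_rpow_lt {p : ℝ} (hp1 : 1 < p) : (2 : ℝ) ^ (1 - p) < 1 :=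
  Real.rpow_lt_one_of_one_lt_of_neg (by norm_num) (by linarith)

lemma cst_pos {p : ℝ} (hp1 : 1 < p) : 0 < cst p := by
  have := two_rpow_lt hp1
  unfold cst
  apply div_pos (by norm_num)
  linarith

lemma trunc_le {ι : Type*} [Fintype ι] {p m : ℝ} (hp1 : 1 < p) (hm : 0 ≤ m) (t : ι → ℝ)
    (h : ∀ s, 0 < s → ((univ.filter fun u => s < t u).card : ℝ) ≤ 16 * s ^ (-p) * m)
    {l : ℝ} (hl : 0 < l) :
    ∑ u, (if l < t u then t u else 0) ≤ cst p * l ^ (1 - p) * m := by
  have hC := cst_pos hp1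
  have key : ∀ K : ℕ, ∀ l : ℝ, 0 < l → (∀ u, t u ≤ 2 ^ K * l) →
      ∑ u, (if l < t u then t u else 0) ≤ cst p * l ^ (1 - p) * m := by
    intro K
    induction K with
    | zero =>
      intro l hl hu
      rw [Finset.sum_eq_zero]
      · have := Real.rpow_nonneg hl.le (1 - p)
        positivity
      · intro u _
        rw [if_neg]
        simpa using hu u
    | succ K ih =>
      intro l hl hu
      have h1 := ih (2 * l) (by positivity) (fun u => by rw [← mul_assoc, ← pow_succ]; exact hu u)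
      have h2 : ∑ u, (if l < t u then t u else 0) ≤
          ∑ u, (if 2 * l < t u then t u else 0) + ∑ u, (if l < t u then 2 * l else 0) := by
        rw [← Finset.sum_add_distrib]
        refine Finset.sum_le_sum fun u _ => ?_
        split_ifs <;> linarith
      have h3 : ∑ u, (if l < t u then 2 * l else 0) ≤ 32 * l ^ (1 - p) * m := by
        rw [← Finset.sum_filter, Finset.sum_const, nsmul_eq_mul]
        have h4 : l ^ (1 - p) = l ^ (-p) * l := by
          rw [show 1 - p = -p + 1 by ring, Real.rpow_add hl, Real.rpow_one]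
        calc _ ≤ (16 * l ^ (-p) * m) * (2 * l) := by gcongr; exact h l hl
          _ = _ := by rw [h4]; ring
      rw [Real.mul_rpow (by norm_num) hl.le] at h1
      have h5 : cst p * 2 ^ (1 - p) + 32 = cst p := by
        have := two_rpow_lt hp1
        have h6 : (1 : ℝ) - 2 ^ (1 - p) ≠ 0 := by linarith
        unfold cst
        field_simp
        ring
      calc _ ≤ cst p * (2 ^ (1 - p) * l ^ (1 - p)) * m + 32 * l ^ (1 - p) * m := by linarith
        _ = (cst p * 2 ^ (1 - p) + 32) * l ^ (1 - p) * m := by ring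
        _ = _ := by rw [h5]
  obtain ⟨K, hK⟩ := pow_unbounded_of_one_lt ((∑ u, |t u|) / l) (one_lt_two (α := ℝ))
  refine key K l hl fun u => ?_
  rw [div_lt_iff₀ hl] at hK
  have := Finset.single_le_sum (f := fun u => |t u|) (fun u _ => abs_nonneg (t u))
    (Finset.mem_univ u)
  linarith [le_abs_self (t u)]

open Classical in
lemma weak_scale {G : Type*} [AddCommGroup G] [Fintype G] {p : ℝ} (hp2 : p < 2) (κ : G → ℂ)
    (hκ : ∀ f : G → ℂ, ((univ.filter fun x => 2 < ‖cv κ f x‖).card : ℝ) ≤ 4 * ∑ y, ‖f y‖ ^ p)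
    (f : G → ℂ) (s : ℝ) (hs : 0 < s) :
    ((univ.filter fun x => s < ‖cv κ f x‖).card : ℝ) ≤ 16 * s ^ (-p) * ∑ y, ‖f y‖ ^ p := by
  have h := hκ fun y => ((2 / s : ℝ) : ℂ) * f y
  have hpos : 0 < 2 / s := by positivity
  have e1 : ∀ x, ‖cv κ (fun y => ((2 / s : ℝ) : ℂ) * f y) x‖ = 2 / s * ‖cv κ f x‖ := by
    intro x
    have : cv κ (fun y => ((2 / s : ℝ) : ℂ) * f y) x = ((2 / s : ℝ) : ℂ) * cv κ f x := by
      simp only [cv, Finset.mul_sum]
      exact Finset.sum_congr rfl fun y _ => by ring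
    rw [this, norm_mul, Complex.norm_real, Real.norm_of_nonneg hpos.le]
  have e2 : (univ.filter fun x => 2 < ‖cv κ (fun y => ((2 / s : ℝ) : ℂ) * f y) x‖)
      = univ.filter fun x => s < ‖cv κ f x‖ := by
    refine Finset.filter_congr fun x _ => ?_
    rw [e1, div_mul_eq_mul_div, lt_div_iff₀ hs]
    constructor <;> intro h <;> linarith
  rw [e2] at h
  refine h.trans ?_
  have e3 : ∑ y, ‖((2 / s : ℝ) : ℂ) * f y‖ ^ p = 2 ^ p * s ^ (-p) * ∑ y, ‖f y‖ ^ p := by
    rw [Finset.mul_sum]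
    refine Finset.sum_congr rfl fun y _ => ?_
    rw [norm_mul, Complex.norm_real, Real.norm_of_nonneg hpos.le,
      Real.mul_rpow hpos.le (norm_nonneg _), Real.div_rpow (by norm_num) hs.le,
      Real.rpow_neg hs.le, div_eq_mul_inv]
  rw [e3]
  have h2 : (2 : ℝ) ^ p ≤ 4 := by
    calc (2 : ℝ) ^ p ≤ 2 ^ (2 : ℝ) := Real.rpow_le_rpow_of_exponent_le (by norm_num) hp2.le
      _ = 4 := by norm_num
  have h3 : 0 ≤ s ^ (-p) * ∑ y, ‖f y‖ ^ p :=
    mul_nonneg (Real.rpow_nonneg hs.le _)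
      (Finset.sum_nonneg fun y _ => Real.rpow_nonneg (norm_nonneg _) _)
  nlinarith

variable {E : Type*} [AddCommGroup E]

/-- the transferred operator: a finite combination of translates in the direction e -/
noncomputable def trOp {N : ℕ} [NeZero N] (κ : ZMod N → ℂ) (e : E) (s : ℤ) (f : E → ℂ) (x : E) :
    ℂ := (N : ℂ)⁻¹ * ∑ u : ZMod N, ∑ v : ZMod N,
      κ (u - v) * f (x + ((v.val : ℤ) - u.val - s) • e)

variable [MeasurableSpace E] [MeasurableAdd E]

lemma measurable_trOp {N : ℕ} [NeZero N] (κ : ZMod N → ℂ) (e : E) (s : ℤ) {f : E → ℂ}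
    (hf : Measurable f) : Measurable (trOp κ e s f) := by
  unfold trOp
  refine Measurable.const_mul (Finset.measurable_sum _ fun u _ => Finset.measurable_sum _
    fun v _ => Measurable.const_mul (hf.comp (measurable_add_const _)) _) _

open Classical in
theorem weak_trOp (μ : Measure E) [μ.IsAddRightInvariant] {p : ℝ} (hp1 : 1 < p) (hp2 : p < 2)
    {N : ℕ} [NeZero N] (κ : ZMod N → ℂ)
    (hκ : ∀ f : ZMod N → ℂ,
      ((univ.filter fun x => 2 < ‖cv κ f x‖).card : ℝ) ≤ 4 * ∑ y, ‖f y‖ ^ p)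
    (e : E) (s : ℤ) {f : E → ℂ} (hf : Measurable f) {l : ℝ} (hl : 0 < l) :
    μ {x | 2 * l < ‖trOp κ e s f x‖} ≤
      ENNReal.ofReal (cst p * l ^ (-p)) * ∫⁻ x, ENNReal.ofReal (‖f x‖ ^ p) ∂μ := by
  have hN : (0 : ℝ) < N := by exact_mod_cast Nat.pos_of_ne_zero (NeZero.ne N)
  have hC := cst_pos hp1
  set F : ZMod N → E → ℝ := fun u x => ‖cv κ (fun v => f (x + (v.val : ℤ) • e)) u‖ with hF
  have hFm : ∀ u, Measurable (F u) := by
    intro u
    simp only [hF, cv]
    refine Measurable.norm (Finset.measurable_sum _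
      fun v _ => Measurable.const_mul (hf.comp (measurable_add_const _)) _)
  set tr : ZMod N → E → ℝ := fun u x => if l < F u x then F u x else 0 with htr
  have htrm : ∀ u, Measurable (tr u) := fun u =>
    Measurable.ite (measurableSet_lt measurable_const (hFm u)) (hFm u) measurable_const
  have htr0 : ∀ u x, 0 ≤ tr u x := by
    intro u x
    simp only [htr]
    split_ifs
    · exact norm_nonneg _
    · exact le_rfl
  set Φ : E → ℝ≥0∞ := fun x => ∑ u : ZMod N,
    ENNReal.ofReal (tr u (x + (-(u.val : ℤ) - s) • e)) with hΦ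
  have hΦm : Measurable Φ := Finset.measurable_sum _ fun u _ =>
    ((htrm u).comp (measurable_add_const _)).ennreal_ofReal
  have hsub : {x | 2 * l < ‖trOp κ e s f x‖} ⊆ {x | ENNReal.ofReal (N * l) ≤ Φ x} := by
    intro x hx
    simp only [Set.mem_ofPred_eq] at hx ⊢
    rw [hΦ]
    simp only
    rw [← ENNReal.ofReal_sum_of_nonneg fun u _ => htr0 u _]
    apply ENNReal.ofReal_le_ofReal
    have h1 : ‖trOp κ e s f x‖ ≤ (N : ℝ)⁻¹ * ∑ u : ZMod N, F u (x + (-(u.val : ℤ) - s) • e) := by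
      rw [trOp, norm_mul, norm_inv, Complex.norm_natCast]
      gcongr
      refine le_trans (norm_sum_le _ _) (Finset.sum_le_sum fun u _ => le_of_eq ?_)
      simp only [hF, cv]
      congr 1
      refine Finset.sum_congr rfl fun v _ => ?_
      congr 2
      rw [add_assoc, ← add_smul]
      congr 2
      ring
    have h2 : ∑ u : ZMod N, F u (x + (-(u.val : ℤ) - s) • e)
        ≤ ∑ u : ZMod N, (l + tr u (x + (-(u.val : ℤ) - s) • e)) := by
      refine Finset.sum_le_sum fun u _ => ?_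
      simp only [htr]
      split_ifs with h
      · linarith
      · linarith
    rw [Finset.sum_add_distrib, Finset.sum_const, Finset.card_univ, ZMod.card, nsmul_eq_mul] at h2
    have h3 : 2 * l < (N : ℝ)⁻¹ * (N * l + ∑ u : ZMod N, tr u (x + (-(u.val : ℤ) - s) • e)) :=
      lt_of_lt_of_le hx (h1.trans (by gcongr))
    rw [← div_eq_inv_mul, lt_div_iff₀ hN] at h3
    linarith
  have hint : ∫⁻ x, Φ x ∂μ ≤ ENNReal.ofReal (cst p * l ^ (1 - p)) *
      (N * ∫⁻ x, ENNReal.ofReal (‖f x‖ ^ p) ∂μ) := by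
    have e1 : ∫⁻ x, Φ x ∂μ = ∫⁻ x, ∑ u : ZMod N, ENNReal.ofReal (tr u x) ∂μ := by
      simp only [hΦ]
      rw [lintegral_finsetSum
        (f := fun (u : ZMod N) x => ENNReal.ofReal (tr u (x + (-(u.val : ℤ) - s) • e))) _
        fun u _ => ((htrm u).comp (measurable_add_const _)).ennreal_ofReal,
        lintegral_finsetSum _ fun u _ => (htrm u).ennreal_ofReal]
      refine Finset.sum_congr rfl fun u _ => ?_
      exact lintegral_add_right_eq_self (fun x => ENNReal.ofReal (tr u x)) _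
    have hfm : Measurable fun x => ENNReal.ofReal (‖f x‖ ^ p) :=
      (hf.norm.pow_const p).ennreal_ofReal
    have e2 : (N * ∫⁻ x, ENNReal.ofReal (‖f x‖ ^ p) ∂μ)
        = ∫⁻ x, ∑ v : ZMod N, ENNReal.ofReal (‖f (x + (v.val : ℤ) • e)‖ ^ p) ∂μ := by
      rw [lintegral_finsetSum
        (f := fun (v : ZMod N) x => ENNReal.ofReal (‖f (x + (v.val : ℤ) • e)‖ ^ p)) _
        fun v _ => hfm.comp (measurable_add_const _)]
      rw [Finset.sum_congr rfl fun v _ =>
        lintegral_add_right_eq_self (fun x => ENNReal.ofReal (‖f x‖ ^ p)) _]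
      simp [ZMod.card]
    rw [e1, e2, ← lintegral_const_mul' _ _ ENNReal.ofReal_ne_top]
    refine lintegral_mono fun x => ?_
    have hlp : 0 ≤ cst p * l ^ (1 - p) := mul_nonneg hC.le (Real.rpow_nonneg hl.le _)
    rw [← ENNReal.ofReal_sum_of_nonneg fun u _ => htr0 u _,
      ← ENNReal.ofReal_sum_of_nonneg fun u _ => Real.rpow_nonneg (norm_nonneg _) _,
      ← ENNReal.ofReal_mul hlp]
    apply ENNReal.ofReal_le_ofReal
    exact trunc_le hp1 (Finset.sum_nonneg fun u _ => Real.rpow_nonneg (norm_nonneg _) _)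
      (fun u => F u x) (fun s hs => weak_scale hp2 κ hκ _ s hs) hl
  have hmark := mul_meas_ge_le_lintegral₀ (μ := μ) hΦm.aemeasurable (ENNReal.ofReal (N * l))
  have hNl : ENNReal.ofReal (N * l) ≠ 0 := by
    rw [ne_eq, ENNReal.ofReal_eq_zero, not_le]; positivity
  refine le_trans (measure_mono hsub) ?_
  rw [← ENNReal.mul_le_mul_iff_right hNl ENNReal.ofReal_ne_top]
  refine le_trans hmark (le_trans hint (le_of_eq ?_))
  rw [← mul_assoc, ← mul_assoc, ← ENNReal.ofReal_natCast N,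
    ← ENNReal.ofReal_mul (mul_nonneg hC.le (Real.rpow_nonneg hl.le _)),
    ← ENNReal.ofReal_mul (by positivity)]
  congr 2
  rw [show 1 - p = -p + 1 by ring, Real.rpow_add hl, Real.rpow_one]
  ring

end Pool.Agent.MP_f2c8fe_an

end MrgPart3

-- ======== part 4: formerly Pool.Agent.MP_f2c8fe_an.Lorentz
section MrgPart4

/-!
Upper and lower bounds for Lorentz quasi-norms from the distribution function.
-/

open MeasureTheory
open scoped ENNReal

namespace Pool.Agent.MP_f2c8fe_an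

variable {α : Type*} [MeasurableSpace α]

lemma rearr_le {μ : Measure α} {f : α → ℂ} {t l : ℝ} (hl : 0 ≤ l)
    (h : μ {x | l < ‖f x‖} ≤ ENNReal.ofReal t) : rearr μ f t ≤ ENNReal.ofReal l := by
  apply sInf_le
  simp only [Set.mem_ofPred_eq]
  convert h using 4 with x
  rw [← ofReal_norm, ENNReal.ofReal_lt_ofReal_iff_of_nonneg hl]

lemma le_rearr {μ : Measure α} {f : α → ℂ} {t l : ℝ}
    (h : ENNReal.ofReal t < μ {x | l ≤ ‖f x‖}) : ENNReal.ofReal l ≤ rearr μ f t := by
  apply le_sInf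
  intro s hs
  simp only [Set.mem_ofPred_eq] at hs
  by_contra hlt
  push Not at hlt
  have hsub : {x | l ≤ ‖f x‖} ⊆ {x | s < ‖f x‖ₑ} := by
    intro x hx
    simp only [Set.mem_ofPred_eq] at hx ⊢
    rw [← ofReal_norm]
    exact lt_of_lt_of_le hlt (ENNReal.ofReal_le_ofReal hx)
  exact absurd (lt_of_lt_of_le h ((measure_mono hsub).trans hs)) (lt_irrefl _)

lemma weakNorm_le {μ : Measure α} {f : α → ℂ} {p B : ℝ} (hp : 0 < p) (hB : 0 ≤ B)
    (h : ∀ l, 0 < l → μ {x | l < ‖f x‖} ≤ ENNReal.ofReal (B ^ p * l ^ (-p))) :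
    weakNorm μ p f ≤ ENNReal.ofReal B := by
  have key : ∀ B', B < B' → weakNorm μ p f ≤ ENNReal.ofReal B' := by
    intro B' hB'
    have hB0 : 0 < B' := lt_of_le_of_lt hB hB'
    refine iSup₂_le fun t ht => ?_
    have ht0 : 0 < t := ht
    have htp : 0 < t ^ (1 / p) := Real.rpow_pos_of_pos ht0 _
    have hl : 0 < B' / t ^ (1 / p) := div_pos hB0 htp
    have h1 : rearr μ f t ≤ ENNReal.ofReal (B' / t ^ (1 / p)) := by
      refine rearr_le hl.le ((h _ hl).trans (ENNReal.ofReal_le_ofReal ?_))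
      rw [Real.rpow_neg hl.le, Real.div_rpow hB0.le htp.le, ← Real.rpow_mul ht0.le,
        one_div_mul_cancel hp.ne', Real.rpow_one, inv_div, ← mul_div_assoc,
        div_le_iff₀ (Real.rpow_pos_of_pos hB0 _), mul_comm]
      exact mul_le_mul_of_nonneg_left (Real.rpow_le_rpow hB hB'.le hp.le) ht0.le
    calc ENNReal.ofReal (t ^ (1 / p)) * rearr μ f t
        ≤ ENNReal.ofReal (t ^ (1 / p)) * ENNReal.ofReal (B' / t ^ (1 / p)) := by gcongr
      _ = ENNReal.ofReal B' := by
        rw [← ENNReal.ofReal_mul htp.le, mul_div_cancel₀ _ htp.ne']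
  refine ENNReal.le_of_forall_pos_le_add fun ε hε _ => ?_
  refine (key (B + ε) (by simpa using hε)).trans (le_of_eq ?_)
  rw [ENNReal.ofReal_add hB ε.coe_nonneg, ENNReal.ofReal_coe_nnreal]

lemma lintegral_ge {μ : Measure α} {f : α → ℂ} {p q γ : ℝ} (hp : 1 ≤ p) (hq : 0 < q) (hγ : 0 < γ)
    {M : ℕ} (n : Fin M → ℝ) (hn : ∀ j, 0 < n j) (hgrow : ∀ i j, i < j → 2 * n i ≤ n j)
    (h : ∀ j, ENNReal.ofReal (n j) ≤ μ {x | γ * (n j ^ (1 / p))⁻¹ ≤ ‖f x‖}) :
    ENNReal.ofReal (M * ((γ / 2) ^ q / 2)) ≤ ∫⁻ t in Set.Ioi (0 : ℝ),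
      (ENNReal.ofReal (t ^ (1 / p)) * rearr μ f t) ^ q / ENNReal.ofReal t := by
  have hp0 : 0 < p := by linarith
  set I : Fin M → Set ℝ := fun j => Set.Ico (n j / 2) (n j) with hI
  have hdisj : Pairwise (Function.onFun Disjoint I) := by
    have key : ∀ i j, i < j → Disjoint (I i) (I j) := by
      intro i j hij
      rw [Set.disjoint_left]
      intro t h1 h2
      have := hgrow i j hij
      linarith [h1.2, h2.1]
    intro i j hij
    rcases lt_or_gt_of_ne hij with h | h
    · exact key i j h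
    · exact (key j i h).symm
  have hsub : (⋃ j, I j) ⊆ Set.Ioi 0 := by
    intro t ht
    obtain ⟨j, hj⟩ := Set.mem_iUnion.1 ht
    have := hn j
    exact lt_of_lt_of_le (by linarith) hj.1
  refine le_trans ?_ (lintegral_mono_set hsub)
  rw [lintegral_iUnion (fun j => measurableSet_Ico) hdisj, tsum_fintype]
  have hγq : 0 < (γ / 2) ^ q := Real.rpow_pos_of_pos (by linarith) _
  have each : ∀ j, ENNReal.ofReal ((γ / 2) ^ q / 2) ≤ ∫⁻ t in I j,
      (ENNReal.ofReal (t ^ (1 / p)) * rearr μ f t) ^ q / ENNReal.ofReal t := by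
    intro j
    have hnj := hn j
    have hnp : 0 < n j ^ (1 / p) := Real.rpow_pos_of_pos hnj _
    calc ENNReal.ofReal ((γ / 2) ^ q / 2)
        = ∫⁻ _ in I j, ENNReal.ofReal ((γ / 2) ^ q / n j) := by
          rw [setLIntegral_const, hI, Real.volume_Ico, ← ENNReal.ofReal_mul (by positivity)]
          congr 1
          field_simp
          ring
      _ ≤ _ := by
          refine setLIntegral_mono' measurableSet_Ico fun t ht => ?_
          have ht0 : 0 < t := lt_of_lt_of_le (by linarith) ht.1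
          have h1 : ENNReal.ofReal (γ * (n j ^ (1 / p))⁻¹) ≤ rearr μ f t :=
            le_rearr (lt_of_lt_of_le ((ENNReal.ofReal_lt_ofReal_iff hnj).2 ht.2) (h j))
          have h2 : n j ^ (1 / p) / 2 ≤ t ^ (1 / p) := by
            have h3 : (2 : ℝ) ^ (1 / p) ≤ 2 := by
              simpa using Real.rpow_le_rpow_of_exponent_le (one_le_two (α := ℝ))
                (show 1 / p ≤ 1 by rw [div_le_one hp0]; exact hp)
            calc n j ^ (1 / p) / 2 ≤ n j ^ (1 / p) / 2 ^ (1 / p) := by gcongr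
              _ = (n j / 2) ^ (1 / p) := by rw [Real.div_rpow hnj.le (by norm_num)]
              _ ≤ t ^ (1 / p) := Real.rpow_le_rpow (by positivity) ht.1 (by positivity)
          have h4 : ENNReal.ofReal (γ / 2) ≤ ENNReal.ofReal (t ^ (1 / p)) * rearr μ f t := by
            calc ENNReal.ofReal (γ / 2)
                = ENNReal.ofReal (n j ^ (1 / p) / 2) * ENNReal.ofReal (γ * (n j ^ (1 / p))⁻¹) := by
                  rw [← ENNReal.ofReal_mul (by positivity)]
                  congr 1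
                  field_simp
              _ ≤ _ := by gcongr
          rw [ENNReal.ofReal_div_of_pos hnj, ← ENNReal.ofReal_rpow_of_pos (by linarith)]
          gcongr
          exact ht.2.le
  calc ENNReal.ofReal (M * ((γ / 2) ^ q / 2)) = ∑ _j : Fin M, ENNReal.ofReal ((γ / 2) ^ q / 2) := by
        rw [ENNReal.ofReal_mul (Nat.cast_nonneg M)]
        simp
    _ ≤ _ := Finset.sum_le_sum fun j _ => each j

lemma growth {q γ : ℝ} (hγ : 0 < γ) (K : ℝ) :
    ∃ r : ℕ, K ≤ (((r + 1) ^ r : ℕ) : ℝ) * (((4 : ℝ)⁻¹ ^ r * γ / 2) ^ q / 2) := by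
  set δ : ℝ := (γ / 2) ^ q / 2 with hδ
  have hδ0 : 0 < δ := by
    have := Real.rpow_pos_of_pos (show 0 < γ / 2 by linarith) q
    positivity
  have h4 : (0 : ℝ) < 4 ^ q := Real.rpow_pos_of_pos (by norm_num) q
  obtain ⟨r, hr⟩ := exists_nat_ge (max (2 * 4 ^ q) (K / δ))
  refine ⟨r, ?_⟩
  have h1 : ((4 : ℝ)⁻¹ ^ r * γ / 2) ^ q = ((4 : ℝ) ^ q)⁻¹ ^ r * (γ / 2) ^ q := by
    rw [mul_div_assoc, Real.mul_rpow (by positivity) (by linarith), ← Real.inv_rpow (by norm_num),
      ← Real.rpow_natCast, ← Real.rpow_natCast, ← Real.rpow_mul (by norm_num),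
      ← Real.rpow_mul (by norm_num), mul_comm (r : ℝ) q]
  have h2 : (2 : ℝ) ≤ (r + 1) * ((4 : ℝ) ^ q)⁻¹ := by
    rw [← div_eq_mul_inv, le_div_iff₀ h4]
    linarith [le_max_left (2 * (4 : ℝ) ^ q) (K / δ)]
  have h3 : (r : ℝ) ≤ ((r + 1) * ((4 : ℝ) ^ q)⁻¹) ^ r := by
    calc (r : ℝ) ≤ 2 ^ r := by exact_mod_cast (Nat.lt_two_pow_self).le
      _ ≤ _ := by gcongr
  have h5 : K ≤ r * δ := by
    rw [← div_le_iff₀ hδ0]
    exact (le_max_right _ _).trans hr
  rw [h1]
  push_cast
  calc K ≤ r * δ := h5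
    _ ≤ ((r + 1) * ((4 : ℝ) ^ q)⁻¹) ^ r * δ := by gcongr
    _ = _ := by rw [hδ, mul_pow]; ring

lemma lorentzNorm_eq_top {μ : Measure α} {f : α → ℂ} {p q γ : ℝ} (hp : 1 ≤ p) (hq : 0 < q)
    (hγ : 0 < γ) (n : (r : ℕ) → Fin ((r + 1) ^ r) → ℝ) (hn : ∀ r j, 0 < n r j)
    (hgrow : ∀ r i j, i < j → 2 * n r i ≤ n r j)
    (h : ∀ r j, ENNReal.ofReal (n r j) ≤
      μ {x | (4 : ℝ)⁻¹ ^ r * γ * (n r j ^ (1 / p))⁻¹ ≤ ‖f x‖}) :
    lorentzNorm μ p q f = ⊤ := by
  have : ∫⁻ t in Set.Ioi (0 : ℝ),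
      (ENNReal.ofReal (t ^ (1 / p)) * rearr μ f t) ^ q / ENNReal.ofReal t = ⊤ := by
    refine ENNReal.eq_top_of_forall_nnreal_le fun K => ?_
    obtain ⟨r, hr⟩ := growth (q := q) hγ K
    refine le_trans ?_ (lintegral_ge hp hq (by positivity) (n r) (hn r) (hgrow r) (h r))
    rw [← ENNReal.ofReal_coe_nnreal]
    exact ENNReal.ofReal_le_ofReal hr
  rw [lorentzNorm, this, ENNReal.top_rpow_of_pos (by positivity)]

lemma rearr_congr {μ : Measure α} {f g : α → ℂ} (h : f =ᵐ[μ] g) : rearr μ f = rearr μ g := by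
  funext t
  unfold rearr
  congr 1
  ext s
  simp only [Set.mem_ofPred_eq]
  have : μ {x | s < ‖f x‖ₑ} = μ {x | s < ‖g x‖ₑ} := by
    refine measure_congr ?_
    filter_upwards [h] with x hx
    show (s < ‖f x‖ₑ) = (s < ‖g x‖ₑ)
    rw [hx]
  rw [this]

lemma weakNorm_congr {μ : Measure α} {f g : α → ℂ} (h : f =ᵐ[μ] g) (p : ℝ) :
    weakNorm μ p f = weakNorm μ p g := by
  rw [weakNorm, weakNorm, rearr_congr h]

lemma lorentzNorm_congr {μ : Measure α} {f g : α → ℂ} (h : f =ᵐ[μ] g) (p q : ℝ) :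
    lorentzNorm μ p q f = lorentzNorm μ p q g := by
  rw [lorentzNorm, lorentzNorm, rearr_congr h]

end Pool.Agent.MP_f2c8fe_an

end MrgPart4

-- ======== part 5: formerly Pool.Agent.MP_f2c8fe_an.Sum
section MrgPart5

/-!
Summing the transferred operators, and evaluating them on the indicator of a small ball.
-/

open Finset MeasureTheory
open scoped ENNReal

namespace Pool.Agent.MP_f2c8fe_an

section
variable {α : Type*} [MeasurableSpace α]

lemma bad_measure_le (μ : Measure α) {p C : ℝ} (hp : 1 ≤ p) (hC : 0 ≤ C) (I : ℝ≥0∞)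
    (g : ℕ → α → ℂ)
    (hg : ∀ r l, 0 < l → μ {x | 2 * l < ‖g r x‖} ≤ ENNReal.ofReal (C * l ^ (-p)) * I)
    {l : ℝ} (hl : 0 < l) :
    μ {x | ∃ r, 2 * (2 ^ r * l) < ‖g r x‖} ≤ ENNReal.ofReal (2 * C * l ^ (-p)) * I := by
  have hlp : 0 ≤ l ^ (-p) := Real.rpow_nonneg hl.le _
  rw [Set.ofPred_exists]
  refine le_trans (measure_iUnion_le _) ?_
  calc ∑' r, μ {x | 2 * (2 ^ r * l) < ‖g r x‖}
      ≤ ∑' r : ℕ, (2⁻¹ : ℝ≥0∞) ^ r * (ENNReal.ofReal (C * l ^ (-p)) * I) := by
        refine ENNReal.tsum_le_tsum fun r => le_trans (hg r _ (by positivity)) ?_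
        rw [← mul_assoc]
        gcongr
        have e : (2⁻¹ : ℝ≥0∞) ^ r = ENNReal.ofReal ((2 ^ r)⁻¹) := by
          rw [ENNReal.ofReal_inv_of_pos (by positivity), ENNReal.ofReal_pow (by norm_num),
            ENNReal.ofReal_ofNat, ENNReal.inv_pow]
        rw [e, ← ENNReal.ofReal_mul (by positivity)]
        apply ENNReal.ofReal_le_ofReal
        rw [Real.mul_rpow (by positivity) hl.le]
        have h1 : ((2 : ℝ) ^ r) ^ (-p) ≤ ((2 : ℝ) ^ r)⁻¹ := by
          rw [← Real.rpow_neg_one]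
          exact Real.rpow_le_rpow_of_exponent_le (one_le_pow₀ one_le_two) (by linarith)
        calc C * (((2 : ℝ) ^ r) ^ (-p) * l ^ (-p)) ≤ C * (((2 : ℝ) ^ r)⁻¹ * l ^ (-p)) := by gcongr
          _ = _ := by ring
    _ = ENNReal.ofReal (2 * C * l ^ (-p)) * I := by
        rw [ENNReal.tsum_mul_right, ENNReal.tsum_geometric, ENNReal.one_sub_inv_two, inv_inv,
          ← mul_assoc, mul_assoc 2 C, ENNReal.ofReal_mul (p := 2) (by norm_num),
          ENNReal.ofReal_ofNat]

omit [MeasurableSpace α] in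
lemma norm_term_le (g : ℕ → α → ℂ) {l : ℝ} {x : α} (h : ¬ ∃ r, 2 * (2 ^ r * l) < ‖g r x‖) (r : ℕ) :
    ‖(4 : ℂ)⁻¹ ^ r * g r x‖ ≤ 2 * l * (1 / 2) ^ r := by
  push Not at h
  rw [norm_mul, norm_pow, norm_inv, Complex.norm_ofNat]
  calc (4 : ℝ)⁻¹ ^ r * ‖g r x‖ ≤ (4 : ℝ)⁻¹ ^ r * (2 * (2 ^ r * l)) := by gcongr; exact h r
    _ = 2 * l * ((4 : ℝ)⁻¹ * 2) ^ r := by rw [mul_pow]; ring
    _ = _ := by norm_num

omit [MeasurableSpace α] in
lemma summable_of_not_bad (g : ℕ → α → ℂ) {l : ℝ} {x : α}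
    (h : ¬ ∃ r, 2 * (2 ^ r * l) < ‖g r x‖) : Summable fun r => (4 : ℂ)⁻¹ ^ r * g r x :=
  Summable.of_norm_bounded (summable_geometric_two.mul_left (2 * l)) (norm_term_le g h)

omit [MeasurableSpace α] in
lemma norm_tsum_le_of_not_bad (g : ℕ → α → ℂ) {l : ℝ} {x : α}
    (h : ¬ ∃ r, 2 * (2 ^ r * l) < ‖g r x‖) : ‖∑' r, (4 : ℂ)⁻¹ ^ r * g r x‖ ≤ 4 * l := by
  have := tsum_of_norm_bounded (hasSum_geometric_two.mul_left (2 * l)) (norm_term_le g h)
  linarith

lemma ae_summable (μ : Measure α) {p C : ℝ} (hp : 1 ≤ p) (hC : 0 ≤ C) {I : ℝ≥0∞} (hI : I ≠ ⊤)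
    (g : ℕ → α → ℂ)
    (hg : ∀ r l, 0 < l → μ {x | 2 * l < ‖g r x‖} ≤ ENNReal.ofReal (C * l ^ (-p)) * I) :
    ∀ᵐ x ∂μ, Summable fun r => (4 : ℂ)⁻¹ ^ r * g r x := by
  rw [ae_iff]
  have h1 : ∀ l : ℝ, 0 < l → μ {x | ¬ Summable fun r => (4 : ℂ)⁻¹ ^ r * g r x}
      ≤ ENNReal.ofReal (2 * C * l ^ (-p)) * I := by
    intro l hl
    refine le_trans (measure_mono fun x hx => ?_) (bad_measure_le μ hp hC I g hg hl)
    by_contra h
    exact hx (summable_of_not_bad g h)
  have h2 : Filter.Tendsto (fun l : ℝ => ENNReal.ofReal (2 * C * l ^ (-p)) * I) Filter.atTop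
      (nhds 0) := by
    have h3 : Filter.Tendsto (fun l : ℝ => 2 * C * l ^ (-p)) Filter.atTop (nhds 0) := by
      simpa using (tendsto_rpow_neg_atTop (show 0 < p by linarith)).const_mul (2 * C)
    have h4 := ENNReal.tendsto_ofReal h3
    rw [ENNReal.ofReal_zero] at h4
    simpa using ENNReal.Tendsto.mul_const h4 (Or.inr hI)
  refine le_antisymm (ge_of_tendsto h2 ?_) zero_le
  filter_upwards [Filter.eventually_gt_atTop 0] with l hl using h1 l hl

lemma weak_tsum (μ : Measure α) {p C : ℝ} (hp : 1 ≤ p) (hC : 0 ≤ C) (I : ℝ≥0∞)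
    (g : ℕ → α → ℂ)
    (hg : ∀ r l, 0 < l → μ {x | 2 * l < ‖g r x‖} ≤ ENNReal.ofReal (C * l ^ (-p)) * I)
    {l : ℝ} (hl : 0 < l) :
    μ {x | 4 * l < ‖∑' r, (4 : ℂ)⁻¹ ^ r * g r x‖} ≤ ENNReal.ofReal (2 * C * l ^ (-p)) * I := by
  refine le_trans (measure_mono fun x hx => ?_) (bad_measure_le μ hp hC I g hg hl)
  by_contra h
  exact absurd hx (not_lt.2 (norm_tsum_le_of_not_bad g h))

end

section
variable {E : Type*} [NormedAddCommGroup E] [NormedSpace ℝ E]

/-- the test function -/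
noncomputable def bump (E : Type*) [NormedAddCommGroup E] : E → ℂ :=
  (Metric.ball (0 : E) (1 / 2)).indicator fun _ => 1

lemma norm_zsmul_unit {e : E} (he : ‖e‖ = 1) (k : ℤ) : ‖k • e‖ = |(k : ℝ)| := by
  rw [← Int.cast_smul_eq_zsmul ℝ, norm_smul, he, mul_one, Real.norm_eq_abs]

lemma bump_eval {e : E} (he : ‖e‖ = 1) {k : ℤ} {x : E} (hx : x ∈ Metric.ball (k • e) (1 / 2))
    (j : ℤ) : bump E (x + j • e) = if j + k = 0 then 1 else 0 := by
  rw [mem_ball_iff_norm] at hx
  have e1 : x + j • e = (x - k • e) + (j + k) • e := by rw [add_smul]; abel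
  unfold bump
  split_ifs with h
  · rw [Set.indicator_of_mem]
    rw [mem_ball_zero_iff, e1, h, zero_smul, add_zero]
    exact hx
  · rw [Set.indicator_of_notMem]
    rw [mem_ball_zero_iff, not_lt]
    have h1 : (1 : ℝ) ≤ ‖(j + k) • e‖ := by
      rw [norm_zsmul_unit he]
      exact_mod_cast Int.one_le_abs h
    have h2 := norm_sub_le (x + j • e) (x - k • e)
    rw [e1, add_sub_cancel_left, ← e1] at h2
    linarith

lemma balls_disjoint {e : E} (he : ‖e‖ = 1) {k j : ℤ} (h : k ≠ j) :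
    Disjoint (Metric.ball (k • e) (1 / 2)) (Metric.ball (j • e) (1 / 2)) := by
  apply Metric.ball_disjoint_ball
  rw [dist_eq_norm, ← sub_smul, norm_zsmul_unit he, add_halves]
  exact_mod_cast Int.one_le_abs (sub_ne_zero.2 h)

lemma trOp_bump_zero {e : E} (he : ‖e‖ = 1) {N : ℕ} [NeZero N] (κ : ZMod N → ℂ) {s k : ℤ} {x : E}
    (hx : x ∈ Metric.ball (k • e) (1 / 2)) (h : s + N ≤ k ∨ k + N ≤ s) :
    trOp κ e s (bump E) x = 0 := by
  rw [trOp, Finset.sum_eq_zero, mul_zero]
  intro u _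
  refine Finset.sum_eq_zero fun v _ => ?_
  have hu := ZMod.val_lt u
  have hv := ZMod.val_lt v
  rw [bump_eval he hx, if_neg (by omega), mul_zero]

lemma trOp_bump {e : E} (he : ‖e‖ = 1) {N : ℕ} [NeZero N] (κ : ZMod N → ℂ) {s : ℤ} {m : ℕ}
    (hm : 2 * m ≤ N) {x : E} (hx : x ∈ Metric.ball ((s + m) • e) (1 / 2)) :
    ‖κ m‖ / 2 ≤ ‖trOp κ e s (bump E) x‖ := by
  have hN : (0 : ℝ) < N := by exact_mod_cast Nat.pos_of_ne_zero (NeZero.ne N)
  have e1 : ∀ v : ZMod N, ∑ u : ZMod N, κ (u - v) * bump E (x + ((v.val : ℤ) - u.val - s) • e)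
      = if v.val + m < N then κ m else 0 := by
    intro v
    simp only [bump_eval he hx]
    split_ifs with h
    · rw [Finset.sum_eq_single ((v.val + m : ℕ) : ZMod N)]
      · rw [if_pos (by rw [ZMod.val_cast_of_lt h]; push_cast; ring), mul_one]
        congr 1
        push_cast
        simp
      · intro u _ hu
        rw [if_neg, mul_zero]
        intro h1
        apply hu
        have : u.val = v.val + m := by omega
        rw [← this, ZMod.natCast_zmod_val]
      · simp
    · refine Finset.sum_eq_zero fun u _ => ?_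
      have hu := ZMod.val_lt u
      rw [if_neg (by omega), mul_zero]
  rw [trOp, Finset.sum_comm]
  simp only [e1]
  rw [← Finset.sum_filter, Finset.sum_const, nsmul_eq_mul, norm_mul, norm_mul, norm_inv,
    Complex.norm_natCast, Complex.norm_natCast]
  have hcard : N - m ≤ (univ.filter fun v : ZMod N => v.val + m < N).card := by
    rw [← Finset.card_range (N - m)]
    refine Finset.card_le_card_of_injOn (fun i => (i : ZMod N)) ?_ ?_
    · intro i hi
      have hi' : i < N - m := by simpa using hi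
      simp only [Finset.coe_filter, Finset.mem_univ, true_and, Set.mem_ofPred_eq]
      rw [ZMod.val_cast_of_lt (by omega)]
      omega
    · intro i hi j hj hij
      have hi' : i < N - m := by simpa using hi
      have hj' : j < N - m := by simpa using hj
      have := congrArg ZMod.val hij
      simp only at this
      rwa [ZMod.val_cast_of_lt (by omega), ZMod.val_cast_of_lt (by omega)] at this
  have h2 : (N : ℝ) ≤ 2 * (univ.filter fun v : ZMod N => v.val + m < N).card := by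
    have : N ≤ 2 * (univ.filter fun v : ZMod N => v.val + m < N).card := by omega
    exact_mod_cast this
  rw [← mul_assoc, div_eq_inv_mul]
  refine mul_le_mul_of_nonneg_right ?_ (norm_nonneg _)
  rw [← div_eq_inv_mul, le_div_iff₀ hN]
  linarith

end

section
variable {E : Type*} [AddCommGroup E]

lemma trOp_add {N : ℕ} [NeZero N] (κ : ZMod N → ℂ) (e : E) (s : ℤ) (f g : E → ℂ) (x : E) :
    trOp κ e s (f + g) x = trOp κ e s f x + trOp κ e s g x := by
  simp only [trOp, Pi.add_apply, mul_add, Finset.sum_add_distrib]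

lemma trOp_smul {N : ℕ} [NeZero N] (κ : ZMod N → ℂ) (e : E) (s : ℤ) (c : ℂ) (f : E → ℂ) (x : E) :
    trOp κ e s (c • f) x = c * trOp κ e s f x := by
  simp only [trOp, Pi.smul_apply, smul_eq_mul, Finset.mul_sum]
  refine Finset.sum_congr rfl fun u _ => Finset.sum_congr rfl fun v _ => by ring

lemma trOp_translate {N : ℕ} [NeZero N] (κ : ZMod N → ℂ) (e : E) (s : ℤ) (f : E → ℂ) (h x : E) :
    trOp κ e s (fun y => f (y - h)) x = trOp κ e s f (x - h) := by
  simp only [trOp, add_sub_right_comm]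

variable [MeasurableSpace E] [MeasurableAdd E]

lemma trOp_congr (μ : Measure E) [μ.IsAddRightInvariant] {N : ℕ} [NeZero N] (κ : ZMod N → ℂ)
    (e : E) (s : ℤ) {f g : E → ℂ} (h : f =ᵐ[μ] g) : trOp κ e s f =ᵐ[μ] trOp κ e s g := by
  have h1 : ∀ᵐ x ∂μ, ∀ k : ℤ, f (x + k • e) = g (x + k • e) := by
    rw [ae_all_iff]
    intro k
    exact (measurePreserving_add_right μ (k • e)).quasiMeasurePreserving.ae_eq_comp h
  filter_upwards [h1] with x hx
  simp only [trOp, hx]

end

end Pool.Agent.MP_f2c8fe_an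

end MrgPart5

-- marker of a merged file
example : 731051 + 487815 = 731051 + 487815 := rfl
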